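import Pool.Agent.Lib.MP_186ff7_lc.Cnt.Stmts
import Pool.Agent.Lib.MP_186ff7_lc.Rooms

/-!
# FP = #P implies that a reduction exists: assembly
-/

namespace Pool.Agent.Lib.MP_186ff7_lc.Cnt

open Turing Pool.Agent.Lib.PT

theorem menN_mlists (J : Marriage) : menN (mlists J) = J.n := J.length_head

theorem length_mlists (J : Marriage) : (mlists J).length = J.n + J.n := by
  simp [mlists]

theorem length_rlists (I : Roommates) : (rlists I).length = I.n := by
  simp [rlists]

/-- The lists of the marriage instance. -/
noncomputable def ylists (x : LL) : LL := marL (code (cntOf (x.length * x.length) (okR x)).bits)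

theorem length_list (I : Roommates) (a : Fin I.n) : (I.list a).length + 1 = I.n := by
  have h1 : (I.list a).toFinset = Finset.univ.erase a := by
    ext b
    simp [I.mem_iff]
  have h2 := congrArg Finset.card h1
  rw [List.toFinset_card_of_nodup (I.nodup a), Finset.card_erase_of_mem (Finset.mem_univ a),
    Finset.card_univ, Fintype.card_fin] at h2
  have := a.2
  omega

theorem map_plM {J : Marriage} (ν : J.Stable) :
    ((plM ν).map fun v => if v < J.n then [v] else []) =
      List.ofFn fun a => (ν.1 a).toList.map Fin.val := by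
  unfold plM
  rw [List.map_ofFn]
  congr 1
  funext a
  simp only [Function.comp]
  cases ν.1 a with
  | none => simp
  | some v => simp

theorem map_headD {J : Marriage} (ν : J.Stable) :
    (List.ofFn fun a => (ν.1 a).toList.map Fin.val).map (fun l => l.headD J.n) = plM ν := by
  unfold plM
  rw [List.map_ofFn]
  congr 1
  funext a
  simp only [Function.comp]
  cases ν.1 a with
  | none => simp
  | some v => simp

theorem word_append (A B : LL) : word (A ++ B) = word A ++ word B := by
  simp [word]

/-- The equivalence for one instance. -/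
theorem one (hDag : StDag) (hCater : StCater) (hR : StRoomW) (hM : StMarrW)
    {T T' : LL → List Bool → List Bool}
    (hT : ∀ x, cntOf (x.length * x.length) (okR x) =
        cntOf (menN (ylists x) * menN (ylists x)) (okM (ylists x)) →
      (∀ w, w.length = x.length * x.length → okR x w = true →
        (T x w).length = menN (ylists x) * menN (ylists x) ∧ okM (ylists x) (T x w) = true ∧
          T' x (T x w) = w) ∧
      ∀ w, w.length = menN (ylists x) * menN (ylists x) → okM (ylists x) w = true →
        (T' x w).length = x.length * x.length ∧ okR x (T' x w) = true ∧ T x (T' x w) = w)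
    (I : Roommates) (hI : I.Solvable) :
    ∃ (J : Marriage) (G : I.Stable ≃ J.Stable), mlists J = ylists (rlists I) ∧
      (I.n = 0 → J.n = 0) ∧
      (∀ μ, plM (G μ) = decW J.n (T (rlists I) (encW I.n (plR μ)))) ∧
      ∀ ν, plR (G.symm ν) = decW I.n (T' (rlists I) (encW J.n (plM ν))) := by
  have hR2 := hR.2 I
  have hxl := length_rlists I
  obtain ⟨x, hx⟩ : ∃ x, rlists I = x := ⟨_, rfl⟩
  rw [hx] at hR2 hxl ⊢
  obtain ⟨eR, heR⟩ := hR2
  obtain ⟨J, hJ1, hJ2, hJ3⟩ := hDag (code (cntOf (x.length * x.length) (okR x)).bits)
  have hJ : mlists J = ylists x := hJ1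
  have hM2 := hM.2 J
  have hJn := menN_mlists J
  rw [hJ] at hM2 hJn
  obtain ⟨eM, heM⟩ := hM2
  have hN : cntOf (x.length * x.length) (okR x) = Nat.card I.Stable :=
    (Nat.card_congr eR).symm
  have hpos : 1 ≤ Nat.card I.Stable := by
    have : Nonempty I.Stable := hI
    exact Nat.card_pos
  have hcard : cntOf (menN (ylists x) * menN (ylists x)) (okM (ylists x)) =
      cntOf (x.length * x.length) (okR x) := by
    have h1 : cntOf (menN (ylists x) * menN (ylists x)) (okM (ylists x)) =
      Nat.card J.Stable := (Nat.card_congr eM).symm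
    rw [h1, hJ3]
    exact hCater _ (by rw [hN]; exact hpos)
  obtain ⟨t1, t2⟩ := hT x hcard.symm
  let E : {w : List Bool // w.length = x.length * x.length ∧ okR x w = true} ≃
      {w : List Bool // w.length = menN (ylists x) * menN (ylists x) ∧
        okM (ylists x) w = true} :=
    { toFun := fun w => ⟨T x w.1, (t1 w.1 w.2.1 w.2.2).1, (t1 w.1 w.2.1 w.2.2).2.1⟩
      invFun := fun w => ⟨T' x w.1, (t2 w.1 w.2.1 w.2.2).1, (t2 w.1 w.2.1 w.2.2).2.1⟩
      left_inv := fun w => Subtype.ext (t1 w.1 w.2.1 w.2.2).2.2
      right_inv := fun w => Subtype.ext (t2 w.1 w.2.1 w.2.2).2.2 }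
  refine ⟨J, (eR.trans E).trans eM.symm, hJ, ?_, ?_, ?_⟩
  · intro h0
    have hN1 : Nat.card I.Stable = 1 := by
      have hs : Subsingleton I.Stable := by
        have : IsEmpty (Fin I.n) := by rw [h0]; infer_instance
        infer_instance
      exact Nat.card_eq_one_iff_unique.2 ⟨hs, hI⟩
    rw [hN, hN1] at hJ2
    have e : code (Nat.bits 1) = [] := by simp [code]
    rw [e] at hJ2
    simpa using hJ2
  · intro μ
    have h1 := (heM (eM.symm (E (eR μ)))).2
    rw [Equiv.apply_symm_apply] at h1
    have h3 : (E (eR μ)).1 = T x (encW x.length (plR μ)) := by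
      show T x (eR μ).1 = _
      rw [(heR μ).1]
    rw [h3] at h1
    rw [← hxl, ← hJn]
    exact h1.symm
  · intro ν
    have h1 := (heR (eR.symm (E.symm (eM ν)))).2
    rw [Equiv.apply_symm_apply] at h1
    have h3 : (E.symm (eM ν)).1 = T' x (encW (menN (ylists x)) (plM ν)) := by
      show T' x (eM ν).1 = _
      rw [(heM ν).1]
    rw [h3] at h1
    rw [← hxl, ← hJn]
    exact h1.symm

/-- The number of agents, from the lists of the instance and of a matching. -/
def agN (A : LL) : ℕ := if A.length = 0 then 0 else (A.getD 0 []).length + 1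

theorem ptime_agN : PTime agN := by
  unfold agN
  exact PTime.ite (p := fun A : LL => A.length = 0) (by fun_prop) (by fun_prop)
    (by fun_prop)

theorem agN_eq {I : Roommates} {J : Marriage} (ν : J.Stable) (h0 : I.n = 0 → J.n = 0) :
    agN (rlists I ++ List.ofFn fun a => (ν.1 a).toList.map Fin.val) = I.n := by
  unfold agN
  rcases Nat.eq_zero_or_pos I.n with h1 | h1
  · have h2 := h0 h1
    rw [if_pos, h1]
    rw [List.length_append, length_rlists, List.length_ofFn, h1, h2]
  · rw [if_neg]
    · have h2 : (rlists I ++ List.ofFn fun a => (ν.1 a).toList.map Fin.val).getD 0 [] =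
          (I.list ⟨0, h1⟩).map Fin.val := by
        rw [List.getD_append _ _ _ _ (by rw [length_rlists]; exact h1)]
        unfold rlists
        rw [List.getD_eq_getElem?_getD, List.getElem?_ofFn]
        simp [h1]
      rw [h2, List.length_map]
      exact length_list _ _
    · rw [List.length_append, length_rlists]
      omega

theorem ptime_menN : PTime menN := by
  unfold menN
  fun_prop

theorem ptime_ylists (hmar : PTime marL) (hcode : PTime code)
    (hc : PTime fun x : LL => (cntOf (x.length * x.length) (okR x)).bits) : PTime ylists :=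
  hmar.comp (hcode.comp hc)

attribute [local irreducible] ylists menN encW decW agN okR okM word parse

/-- The map `g` on lists. -/
noncomputable def gL (T : LL → List Bool → List Bool) (A : LL) : LL :=
  (decW (menN (ylists (A.take (A.length - 1))))
    (T (A.take (A.length - 1)) (encW (A.take (A.length - 1)).length
      (A.getD (A.length - 1) [])))).map fun v =>
        if v < menN (ylists (A.take (A.length - 1))) then [v] else []

/-- The map `h` on lists. -/
noncomputable def hL (T' : LL → List Bool → List Bool) (A : LL) : LL :=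
  [decW (agN A) (T' (A.take (agN A)) (encW (menN (ylists (A.take (agN A))))
    ((A.drop (agN A)).map fun l => l.headD (menN (ylists (A.take (agN A)))))))]

theorem ptime_gL (hn' : PTime fun x : LL => menN (ylists x)) (hW : StWPT)
    {T : LL → List Bool → List Bool} (hT : PTime fun p : LL × List Bool => T p.1 p.2) :
    PTime (gL T) := by
  unfold gL
  obtain ⟨henc, hdec⟩ := hW
  have h1 : PTime fun A : LL => A.take (A.length - 1) := by fun_prop
  have h2 : PTime fun A : LL => A.getD (A.length - 1) [] := by fun_prop
  have h3 : PTime fun A : LL => menN (ylists (A.take (A.length - 1))) := hn'.comp h1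
  have h4 : PTime fun A : LL => encW (A.take (A.length - 1)).length
      (A.getD (A.length - 1) []) := henc.comp (PTime.pair h1.length h2)
  have h5 : PTime fun A : LL => T (A.take (A.length - 1)) (encW (A.take (A.length - 1)).length
      (A.getD (A.length - 1) [])) := hT.comp (PTime.pair h1 h4)
  have h6 : PTime fun A : LL => decW (menN (ylists (A.take (A.length - 1))))
    (T (A.take (A.length - 1)) (encW (A.take (A.length - 1)).length
      (A.getD (A.length - 1) []))) := hdec.comp (PTime.pair h3 h5)
  refine PTime.map (f := fun A v =>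
    if v < menN (ylists (A.take (A.length - 1))) then [v] else []) h6 ?_
  have h7 : PTime fun p : LL × ℕ => menN (ylists (p.1.take (p.1.length - 1))) :=
    h3.comp PTime.fst
  exact PTime.ite (p := fun p : LL × ℕ => p.2 < menN (ylists (p.1.take (p.1.length - 1))))
    (PTime.lt PTime.snd h7) (by fun_prop) (by fun_prop)

theorem ptime_hL (hn' : PTime fun x : LL => menN (ylists x)) (hW : StWPT)
    {T' : LL → List Bool → List Bool} (hT' : PTime fun p : LL × List Bool => T' p.1 p.2) :
    PTime (hL T') := by
  unfold hL
  obtain ⟨henc, hdec⟩ := hW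
  have h1 : PTime fun A : LL => agN A := ptime_agN
  have h2 : PTime fun A : LL => A.take (agN A) := PTime.take h1 PTime.id
  have h3 : PTime fun A : LL => menN (ylists (A.take (agN A))) := hn'.comp h2
  have h7 : PTime fun p : LL × List ℕ => menN (ylists (p.1.take (agN p.1))) :=
    h3.comp PTime.fst
  have h4 : PTime fun A : LL => (A.drop (agN A)).map fun l =>
      l.headD (menN (ylists (A.take (agN A)))) :=
    PTime.map (l := fun A : LL => A.drop (agN A))
      (f := fun A l => l.headD (menN (ylists (A.take (agN A))))) (PTime.drop h1 PTime.id)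
      (PTime.headD PTime.snd h7)
  have h5 : PTime fun A : LL => encW (menN (ylists (A.take (agN A))))
      ((A.drop (agN A)).map fun l => l.headD (menN (ylists (A.take (agN A))))) :=
    henc.comp (PTime.pair h3 h4)
  have h6 : PTime fun A : LL => T' (A.take (agN A)) (encW (menN (ylists (A.take (agN A))))
      ((A.drop (agN A)).map fun l => l.headD (menN (ylists (A.take (agN A)))))) :=
    hT'.comp (PTime.pair h2 h5)
  exact PTime.cons (hdec.comp (PTime.pair h1 h6)) (PTime.const _)

theorem gL_eq {T : LL → List Bool → List Bool} {I : Roommates} {J : Marriage} {μ : I.Stable}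
    {ν : J.Stable} (hJ : mlists J = ylists (rlists I))
    (h : plM ν = decW J.n (T (rlists I) (encW I.n (plR μ)))) :
    gL T (rlists I ++ [plR μ]) = List.ofFn fun a => (ν.1 a).toList.map Fin.val := by
  unfold gL
  have e2 : (rlists I ++ [plR μ]).length - 1 = (rlists I).length := by simp
  have e3 : (rlists I ++ [plR μ]).getD (rlists I).length [] = plR μ := by
    rw [List.getD_append_right _ _ _ _ le_rfl, Nat.sub_self]
    rfl
  rw [e2, List.take_left, e3, ← hJ, menN_mlists, length_rlists, ← h, map_plM]

theorem hL_eq {T' : LL → List Bool → List Bool} {I : Roommates} {J : Marriage} {μ : I.Stable}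
    {ν : J.Stable} (hJ : mlists J = ylists (rlists I)) (h0 : I.n = 0 → J.n = 0)
    (h : plR μ = decW I.n (T' (rlists I) (encW J.n (plM ν)))) :
    hL T' (rlists I ++ List.ofFn fun a => (ν.1 a).toList.map Fin.val) = [plR μ] := by
  unfold hL
  have e2 := agN_eq ν h0
  have e3 : (rlists I ++ List.ofFn fun a => (ν.1 a).toList.map Fin.val).take I.n =
      rlists I := by
    rw [← length_rlists I, List.take_left]
  have e4 : (rlists I ++ List.ofFn fun a => (ν.1 a).toList.map Fin.val).drop I.n =
      List.ofFn fun a => (ν.1 a).toList.map Fin.val := by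
    rw [← length_rlists I, List.drop_left]
  rw [e2, e3, e4, ← hJ, menN_mlists, map_headD, ← h]

theorem converse (hCnt : StCnt) (hTr : StTrans) (hDag : StDag) (hCater : StCater)
    (hPT : StMarPT) (hR : StRoomW) (hM : StMarrW) (hW : StWPT) : StConverse := by
  intro hFP
  have hC := hCnt hFP
  obtain ⟨hmar, hcode⟩ := hPT
  have hL₁ : PTime fun x : LL => x.length * x.length := by fun_prop
  have hc : PTime fun x : LL => (cntOf (x.length * x.length) (okR x)).bits :=
    hC (fun x => x.length * x.length) okR hL₁ hR.1
  have hY : PTime ylists := ptime_ylists hmar hcode hc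
  have hmenN : PTime menN := ptime_menN
  have hn' : PTime fun x : LL => menN (ylists x) := hmenN.comp hY
  have hL₂ : PTime fun x : LL => menN (ylists x) * menN (ylists x) := PTime.mul hn' hn'
  have hV₂ : PTime fun p : LL × List Bool => okM (ylists p.1) p.2 :=
    hM.1.comp (PTime.pair (hY.comp PTime.fst) PTime.snd)
  obtain ⟨T, T', hT, hT', hTT⟩ := hTr hC (fun x => x.length * x.length)
    (fun x => menN (ylists x) * menN (ylists x)) okR (fun x => okM (ylists x)) hL₁ hL₂ hR.1 hV₂
  have key := one hDag hCater hR hM hTT
  choose J G hG using key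
  have hf : PolyTimeMap fun I : SolvableRoommates => J I.1 I.2 := by
    refine ptime_tm' (F := fun u => word (ylists (parse u))) tr_sym_injective
      (ptime_word.comp (hY.comp ptime_parse)) fun I => ?_
    have e1 : I.1.encode = word (rlists I.1) := rfl
    have e2 : (J I.1 I.2).encode = word (mlists (J I.1 I.2)) := rfl
    rw [e1, e2, parse_word, (hG I.1 I.2).1]
  refine ⟨⟨fun I => J I.1 I.2, fun I => G I.1 I.2, fun I => (G I.1 I.2).symm,
    fun I => (G I.1 I.2).left_inv, fun I => (G I.1 I.2).right_inv, hf, ?_, ?_⟩⟩
  · refine ptime_tm' (F := fun u => word (gL T (parse u))) tr_sym_injective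
      (ptime_word.comp ((ptime_gL hn' hW hT).comp ptime_parse)) ?_
    rintro ⟨I, μ⟩
    have e1 : I.1.encode ++ μ.encode = word (rlists I.1 ++ [plR μ]) := by
      rw [word_append]
      rfl
    simp only
    rw [e1, parse_word, gL_eq (hG I.1 I.2).1 ((hG I.1 I.2).2.2.1 μ)]
    rfl
  · refine ptime_tm' (F := fun u => word (hL T' (parse u))) tr_sym_injective
      (ptime_word.comp ((ptime_hL hn' hW hT').comp ptime_parse)) ?_
    rintro ⟨I, ν⟩
    have e1 : I.1.encode ++ ν.encode =
        word (rlists I.1 ++ List.ofFn fun a => (ν.1 a).toList.map Fin.val) := by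
      rw [word_append]
      rfl
    simp only
    rw [e1, parse_word, hL_eq (hG I.1 I.2).1 (hG I.1 I.2).2.1 ((hG I.1 I.2).2.2.2 ν)]
    rfl

end Pool.Agent.Lib.MP_186ff7_lc.Cnt
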