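import Pool.Agent.Lib.MP_186ff7_lc.Cnt.Stmts

/-!
# Comparison of binary numbers
-/

namespace Pool.Agent.Lib.MP_186ff7_lc.Cnt

open Turing Pool.Agent.Lib.PT

/-- The number with the binary digits `l`, the lowest digit first. -/
def bval : List Bool → ℕ
  | [] => 0
  | c :: l => c.toNat + 2 * bval l

namespace BinAux

/-- the number given by the first `n` values of a function -/
def vn (n : ℕ) (f : ℕ → Bool) : ℕ := ∑ i ∈ Finset.range n, (f i).toNat * 2 ^ i

lemma vn_succ (n : ℕ) (f : ℕ → Bool) : vn (n + 1) f = vn n f + (f n).toNat * 2 ^ n :=
  Finset.sum_range_succ _ _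

lemma vn_succ' (n : ℕ) (f : ℕ → Bool) :
    vn (n + 1) f = (f 0).toNat + 2 * vn n (fun i => f (i + 1)) := by
  unfold vn
  rw [Finset.sum_range_succ', Finset.mul_sum, add_comm]
  congr 1
  · simp
  · apply Finset.sum_congr rfl
    intro i _
    rw [pow_succ]
    ring

lemma vn_lt (n : ℕ) (f : ℕ → Bool) : vn n f < 2 ^ n := by
  induction n with
  | zero => simp [vn]
  | succ n ih =>
    rw [vn_succ, pow_succ]
    have : (f n).toNat ≤ 1 := Bool.toNat_le _
    have h2 : (f n).toNat * 2 ^ n ≤ 1 * 2 ^ n := Nat.mul_le_mul_right _ this
    omega

/-- comparison -/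
def cmp (n : ℕ) (f g : ℕ → Bool) : Bool :=
  (List.range n).foldl (fun s i => if f i = g i then s else g i) false

lemma cmp_eq (n : ℕ) (f g : ℕ → Bool) : cmp n f g = decide (vn n f < vn n g) := by
  induction n with
  | zero => simp [cmp, vn]
  | succ n ih =>
    have h1 : cmp (n + 1) f g = if f n = g n then cmp n f g else g n := by
      unfold cmp
      rw [List.range_succ, List.foldl_append]
      rfl
    rw [h1, ih, vn_succ, vn_succ]
    have hf := vn_lt n f
    have hg := vn_lt n g
    cases hfn : f n <;> cases hgn : g n
    · simp
    · simp only [Bool.false_eq_true, if_false, Bool.toNat_false, Bool.toNat_true, zero_mul,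
        add_zero, one_mul]
      symm
      rw [decide_eq_true_eq]
      omega
    · simp only [Bool.true_eq_false, if_false, Bool.toNat_false, Bool.toNat_true, zero_mul,
        add_zero, one_mul]
      symm
      rw [decide_eq_false_iff_not]
      omega
    · simp

lemma bval_eq : ∀ (l : List Bool) (n : ℕ), l.length ≤ n →
    bval l = vn n (fun i => l.getD i false) := by
  intro l
  induction l with
  | nil =>
    intro n _
    simp [bval, vn]
  | cons c l ih =>
    intro n hn
    obtain ⟨n, rfl⟩ : ∃ m, n = m + 1 := ⟨n - 1, by simp at hn; omega⟩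
    rw [vn_succ', bval, ih n (by simpa using hn)]
    simp

end BinAux

open BinAux

lemma bval_bits (n : ℕ) : bval n.bits = n := by
  induction n using Nat.strong_induction_on with
  | _ n ih =>
    rcases Nat.even_or_odd' n with ⟨m, rfl | rfl⟩
    · rcases Nat.eq_zero_or_pos m with rfl | hm
      · simp [bval]
      · rw [Nat.bit0_bits m (by omega), bval, ih m (by omega)]
        simp
    · rw [Nat.bit1_bits, bval, ih m (by omega)]
      simp [add_comm]

/-- Comparison of binary numbers. -/
theorem ptime_bvalLt {α : Type} [Enc α] {v w : α → List Bool} (hv : PTime v) (hw : PTime w) :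
    PTime fun a => decide (bval (v a) < bval (w a)) := by
  have h : PTime fun a => (List.range (max (v a).length (w a).length)).foldl
      (fun s i => if (v a).getD i false = (w a).getD i false then s else (w a).getD i false)
      false := by
    refine PTime.foldl (l := fun a => List.range (max (v a).length (w a).length))
      (s := fun _ => false) (f := fun a s i => if (v a).getD i false = (w a).getD i false then s
        else (w a).getD i false) (by fun_prop) (PTime.const _) ?_ (B := fun _ => 3)
        (PB.const 3) ?_
    · have h1 : PTime fun p : α × Bool × ℕ => v p.1 := hv.comp (by fun_prop)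
      have h2 : PTime fun p : α × Bool × ℕ => w p.1 := hw.comp (by fun_prop)
      refine PTime.ite (p := fun p : α × Bool × ℕ => (v p.1).getD p.2.2 false =
        (w p.1).getD p.2.2 false) ?_ (by fun_prop) (by fun_prop)
      exact PTime.eq (by fun_prop) (by fun_prop)
    · intro a _ _ _
      exact sz_bool _
  refine h.of_eq fun a => ?_
  have h1 := cmp_eq (max (v a).length (w a).length) (fun i => (v a).getD i false)
    (fun i => (w a).getD i false)
  rw [bval_eq (v a) _ (le_max_left _ (w a).length), bval_eq (w a) _ (le_max_right (v a).length _),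
    ← h1]
  rfl

/-- Comparison of binary numbers. -/
theorem bin : StBin := by
  intro α _ a b ha hb
  refine (ptime_bvalLt hb ha).not.of_eq fun x => ?_
  rw [bval_bits, bval_bits]
  by_cases h : a x ≤ b x
  · simp [h, not_lt.mpr h]
  · simp [h, not_le.mp h]

end Pool.Agent.Lib.MP_186ff7_lc.Cnt
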