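import Pool.Agent.Lib.MP_186ff7_lc.Cnt.Stmts

/-!
# The number of closed sets is arbitrary; the lists are computable in polynomial time
-/

namespace Pool.Agent.Lib.MP_186ff7_lc.Cnt

open Turing Pool.Agent.Lib.PT

namespace CaterAux

/-- closed sets, in terms of a function on all numbers -/
abbrev Cl (n : ℕ) (g : ℕ → Bool) : Type :=
  {s : Fin n → Bool // ∀ z x : Fin n, g z = true → x < z → s z = true → s x = true}

lemma closed_eq (b : List Bool) : Closed b = Cl b.length (fun i => b.getD i false) := by
  unfold Closed Cl
  congr 1
  funext s
  have : ∀ z : Fin b.length, b.getD z false = b.get z := by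
    intro z
    rw [List.getD_eq_getElem b false z.2, List.get_eq_getElem]
  simp only [this]

lemma card_congr_fun (n : ℕ) (g g' : ℕ → Bool) (h : ∀ i < n, g i = g' i) :
    Nat.card (Cl n g) = Nat.card (Cl n g') := by
  apply Nat.card_congr
  refine Equiv.subtypeEquivRight ?_
  intro s
  constructor
  · intro hs z x hz
    exact hs z x (by rw [h z z.2]; exact hz)
  · intro hs z x hz
    exact hs z x (by rw [← h z z.2]; exact hz)

lemma card_zero (g : ℕ → Bool) : Nat.card (Cl 0 g) = 1 := by
  have : Unique (Cl 0 g) :=
    { default := ⟨fun i => i.elim0, fun z => z.elim0⟩
      uniq := by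
        rintro ⟨s, hs⟩
        apply Subtype.ext
        funext i
        exact i.elim0 }
  exact Nat.card_unique

/-- extension by one element -/
def ext {n : ℕ} (t : Fin n → Bool) (c : Bool) : Fin (n + 1) → Bool :=
  Fin.snoc (α := fun _ => Bool) t c

@[simp] lemma ext_cast {n : ℕ} (t : Fin n → Bool) (c : Bool) (i : Fin n) :
    ext t c i.castSucc = t i := by simp [ext]

@[simp] lemma ext_last {n : ℕ} (t : Fin n → Bool) (c : Bool) : ext t c (Fin.last n) = c := by
  simp [ext]

lemma ext_init {n : ℕ} (s : Fin (n + 1) → Bool) :
    ext (fun i => s i.castSucc) (s (Fin.last n)) = s := by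
  funext i
  refine Fin.lastCases ?_ (fun i => ?_) i
  · simp
  · simp

lemma card_false (n : ℕ) (g : ℕ → Bool) (h : g n = false) :
    Nat.card (Cl (n + 1) g) = 2 * Nat.card (Cl n g) := by
  have hcl : ∀ p : Cl n g × Bool, ∀ z x : Fin (n + 1), g z = true → x < z →
      ext p.1.1 p.2 z = true → ext p.1.1 p.2 x = true := by
    rintro ⟨⟨t, ht⟩, c⟩ z
    refine Fin.lastCases ?_ (fun z => ?_) z
    · intro x hz
      rw [Fin.val_last, h] at hz
      exact absurd hz (by simp)
    · intro x
      refine Fin.lastCases ?_ (fun x => ?_) x
      · intro _ hlt
        exact absurd hlt (not_lt.mpr (Fin.le_last _))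
      · intro hz hlt
        rw [ext_cast, ext_cast]
        exact ht z x hz (by simpa using hlt)
  let f : Cl n g × Bool → Cl (n + 1) g := fun p => ⟨ext p.1.1 p.2, hcl p⟩
  have hf : Function.Bijective f := by
    constructor
    · rintro ⟨⟨t, ht⟩, c⟩ ⟨⟨t', ht'⟩, c'⟩ hh
      have h1 : ext t c = ext t' c' := congrArg Subtype.val hh
      have h2 : c = c' := by
        have := congrFun h1 (Fin.last n)
        simpa using this
      have h3 : t = t' := by
        funext i
        have := congrFun h1 i.castSucc
        simpa using this
      subst h2
      subst h3
      rfl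
    · rintro ⟨s, hs⟩
      refine ⟨⟨⟨fun i => s i.castSucc, ?_⟩, s (Fin.last n)⟩, ?_⟩
      · intro z x hz hlt
        exact hs z.castSucc x.castSucc hz (by simpa using hlt)
      · exact Subtype.ext (ext_init s)
  rw [← Nat.card_congr (Equiv.ofBijective f hf), Nat.card_prod]
  simp [mul_comm]

lemma card_true (n : ℕ) (g : ℕ → Bool) (h : g n = true) :
    Nat.card (Cl (n + 1) g) = Nat.card (Cl n g) + 1 := by
  have hcl : ∀ p : Cl n g, ∀ z x : Fin (n + 1), g z = true → x < z →
      ext p.1 false z = true → ext p.1 false x = true := by
    rintro ⟨t, ht⟩ z
    refine Fin.lastCases ?_ (fun z => ?_) z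
    · intro x _ _ hz
      rw [ext_last] at hz
      exact absurd hz (by simp)
    · intro x
      refine Fin.lastCases ?_ (fun x => ?_) x
      · intro _ hlt
        exact absurd hlt (not_lt.mpr (Fin.le_last _))
      · intro hz hlt
        rw [ext_cast, ext_cast]
        exact ht z x hz (by simpa using hlt)
  let f : Option (Cl n g) → Cl (n + 1) g := fun p =>
    match p with
    | none => ⟨fun _ => true, fun _ _ _ _ _ => rfl⟩
    | some t => ⟨ext t.1 false, hcl t⟩
  have hf : Function.Bijective f := by
    constructor
    · rintro (_ | ⟨t, ht⟩) (_ | ⟨t', ht'⟩) hh
      · rfl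
      · have h1 : (fun _ => true) = ext t' false := congrArg Subtype.val hh
        have := congrFun h1 (Fin.last n)
        simp at this
      · have h1 : ext t false = (fun _ => true) := congrArg Subtype.val hh
        have := congrFun h1 (Fin.last n)
        simp at this
      · have h1 : ext t false = ext t' false := congrArg Subtype.val hh
        have h3 : t = t' := by
          funext i
          have := congrFun h1 i.castSucc
          simpa using this
        subst h3
        rfl
    · rintro ⟨s, hs⟩
      cases hl : s (Fin.last n) with
      | true =>
        refine ⟨none, Subtype.ext ?_⟩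
        funext i
        refine Fin.lastCases ?_ (fun i => ?_) i
        · exact hl.symm
        · exact (hs (Fin.last n) i.castSucc (by simpa using h) (Fin.castSucc_lt_last i) hl).symm
      | false =>
        refine ⟨some ⟨fun i => s i.castSucc, ?_⟩, ?_⟩
        · intro z x hz hlt
          exact hs z.castSucc x.castSucc hz (by simpa using hlt)
        · apply Subtype.ext
          show ext (fun i => s i.castSucc) false = s
          rw [← hl]
          exact ext_init s
  rw [← Nat.card_congr (Equiv.ofBijective f hf), Finite.card_option]

/-- the number of closed sets -/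
noncomputable def numC (b : List Bool) : ℕ := Nat.card (Closed b)

lemma num_nil : numC [] = 1 := by
  unfold numC
  rw [closed_eq]
  exact card_zero _

lemma num_append (b : List Bool) (c : Bool) :
    numC (b ++ [c]) = if c = true then numC b + 1 else 2 * numC b := by
  unfold numC
  rw [closed_eq, closed_eq, List.length_append]
  have h1 : (fun i => (b ++ [c]).getD i false) b.length = c := by simp
  have h2 : ∀ i < b.length, (fun i => (b ++ [c]).getD i false) i =
      (fun i => b.getD i false) i := by
    intro i hi
    simp only
    rw [List.getD_append _ _ _ _ hi]
  cases c with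
  | true =>
    rw [if_pos rfl]
    show Nat.card (Cl (b.length + 1) _) = _
    rw [card_true _ _ h1, card_congr_fun _ _ _ h2]
  | false =>
    rw [if_neg (by simp)]
    show Nat.card (Cl (b.length + 1) _) = _
    rw [card_false _ _ h1, card_congr_fun _ _ _ h2]

lemma num_flatMap (l : List Bool) :
    numC (l.flatMap fun c => if c then [false, true] else [false]) =
      l.foldl (fun n c => 2 * n + c.toNat) 1 := by
  induction l using List.reverseRecOn with
  | nil => exact num_nil
  | append_singleton l c ih =>
    rw [List.flatMap_append, List.foldl_append, ← ih]
    cases c with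
    | true =>
      have : (List.flatMap (fun c => if c = true then [false, true] else [false]) l ++
          List.flatMap (fun c => if c = true then [false, true] else [false]) [true]) =
          (List.flatMap (fun c => if c = true then [false, true] else [false]) l ++ [false]) ++
            [true] := by simp
      rw [this, num_append, num_append]
      simp
    | false =>
      have : (List.flatMap (fun c => if c = true then [false, true] else [false]) l ++
          List.flatMap (fun c => if c = true then [false, true] else [false]) [false]) =
          (List.flatMap (fun c => if c = true then [false, true] else [false]) l ++ [false]) := by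
        simp
      rw [this, num_append]
      simp

lemma val_bits : ∀ N : ℕ, 1 ≤ N →
    N.bits.reverse.tail.foldl (fun n c => 2 * n + c.toNat) 1 = N := by
  intro N
  induction N using Nat.strong_induction_on with
  | _ N ih =>
    intro hN
    have hne : ∀ M : ℕ, 1 ≤ M → M.bits.reverse ≠ [] := by
      intro M hM h
      rw [List.reverse_eq_nil_iff] at h
      have : M = 0 := by
        have h1 := congrArg List.length h
        rw [Nat.size_eq_bits_len] at h1
        exact Nat.size_eq_zero.mp h1
      omega
    rcases Nat.even_or_odd' N with ⟨M, rfl | rfl⟩
    · have hM : 1 ≤ M := by omega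
      rw [Nat.bit0_bits M (by omega), List.reverse_cons, List.tail_append_of_ne_nil (hne M hM),
        List.foldl_append, ih M (by omega) hM]
      simp
    · rw [Nat.bit1_bits, List.reverse_cons]
      rcases Nat.eq_zero_or_pos M with rfl | hM
      · simp
      · rw [List.tail_append_of_ne_nil (hne M hM), List.foldl_append, ih M (by omega) hM]
        simp

end CaterAux

open CaterAux in
/-- The number of closed sets is arbitrary. -/
theorem cater : StCater := by
  intro N hN
  show numC (code N.bits) = N
  unfold code
  rw [num_flatMap, val_bits N hN]

section

variable {α : Type} [Enc α]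

theorem ptime_fillL {n : α → ℕ} {h : α → List ℕ} (hn : PTime n) (hh : PTime h) :
    PTime fun a => fillL (n a) (h a) := by
  unfold fillL
  refine PTime.append hh ?_
  refine PTime.filter (l := fun a => List.range (n a))
    (f := fun a y => !((h a).any fun z => decide (z = y))) (by fun_prop) ?_
  refine PTime.not ?_
  have h1 : PTime fun p : α × ℕ => h p.1 := hh.comp (by fun_prop)
  exact PTime.any (l := fun p : α × ℕ => h p.1) (f := fun p z => decide (z = p.2)) h1
    (by fun_prop)

theorem ptime_manL {b : α → List Bool} {z : α → ℕ} (hb : PTime b) (hz : PTime z) :
    PTime fun a => manL (b a) (z a) := by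
  unfold manL
  refine PTime.cons ?_ (PTime.cons ?_ (PTime.const []))
  · refine ptime_fillL (by fun_prop) ?_
    refine PTime.append (PTime.append (by fun_prop) ?_) (by fun_prop)
    refine PTime.ite (p := fun a => (b a).getD (z a) false = true) ?_ ?_ (PTime.const _)
    · exact (PTime.getD hb hz (PTime.const false)).of_eq fun a => by simp
    · exact PTime.map (l := fun a => List.range (z a)) (f := fun _ x => 2 * x) (by fun_prop)
        (by fun_prop)
  · exact ptime_fillL (by fun_prop) (by fun_prop)

theorem ptime_womanL {b : α → List Bool} {z : α → ℕ} (hb : PTime b) (hz : PTime z) :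
    PTime fun a => womanL (b a) (z a) := by
  unfold womanL
  refine PTime.cons ?_ (PTime.cons ?_ (PTime.const []))
  · refine ptime_fillL (by fun_prop) ?_
    refine PTime.append (PTime.append (by fun_prop) ?_) (by fun_prop)
    refine PTime.map (l := fun a => (List.range (b a).length).filter fun y =>
      decide (z a < y) && (b a).getD y false) (f := fun _ y => 2 * y) ?_ (by fun_prop)
    refine PTime.filter (l := fun a => List.range (b a).length)
      (f := fun a y => decide (z a < y) && (b a).getD y false) (by fun_prop) ?_
    have h1 : PTime fun p : α × ℕ => b p.1 := hb.comp (by fun_prop)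
    have h2 : PTime fun p : α × ℕ => z p.1 := hz.comp (by fun_prop)
    fun_prop
  · exact ptime_fillL (by fun_prop) (by fun_prop)

end

/-- The lists are computable in polynomial time. -/
theorem marPT : StMarPT := by
  constructor
  · show PTime fun b => marL b
    unfold marL
    refine PTime.append ?_ ?_
    · refine PTime.flatMap (l := fun b : List Bool => List.range b.length)
        (f := fun b z => manL b z) (by fun_prop) ?_
      exact ptime_manL (by fun_prop) (by fun_prop)
    · refine PTime.flatMap (l := fun b : List Bool => List.range b.length)
        (f := fun b z => womanL b z) (by fun_prop) ?_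
      exact ptime_womanL (by fun_prop) (by fun_prop)
  · show PTime fun l => code l
    unfold code
    refine PTime.flatMap (l := fun l : List Bool => l.reverse.tail)
      (f := fun _ c => if c = true then [false, true] else [false]) (by fun_prop) ?_
    exact PTime.ite (p := fun p : List Bool × Bool => p.2 = true) (by fun_prop) (PTime.const _)
      (PTime.const _)

end Pool.Agent.Lib.MP_186ff7_lc.Cnt
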