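import Pool.Agent.Lib.MP_186ff7_lc.Cnt.Stmts

/-!
# If FP = #P, then one can count in polynomial time
-/

namespace Pool.Agent.Lib.MP_186ff7_lc.Cnt

open Turing Pool.Agent.Lib.PT

namespace CntM

/-- the letters of the input -/
def lefts (w : List (Sym ⊕ Bool)) : List Sym :=
  w.flatMap fun x => (Sum.elim (fun s => [s]) (fun _ => []) x : List Sym)

/-- the letters of the certificate -/
def rights (w : List (Sym ⊕ Bool)) : List Bool :=
  w.flatMap fun x => (Sum.elim (fun _ => []) (fun b => [b]) x : List Bool)

theorem ptime_lefts : PTime lefts := by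
  unfold lefts
  refine PTime.flatMap (l := fun w : List (Sym ⊕ Bool) => w)
    (f := fun _ x => (Sum.elim (fun s => [s]) (fun _ => []) x : List Sym)) (by fun_prop) ?_
  refine PTime.sumCases (o := fun p : List (Sym ⊕ Bool) × (Sym ⊕ Bool) => p.2)
    (f := fun q => [q.2]) (g := fun _ => []) (by fun_prop) (by fun_prop) (by fun_prop) ?_ ?_
  · intro a x e
    rw [e]; rfl
  · intro a x e
    rw [e]; rfl

theorem ptime_rights : PTime rights := by
  unfold rights
  refine PTime.flatMap (l := fun w : List (Sym ⊕ Bool) => w)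
    (f := fun _ x => (Sum.elim (fun _ => []) (fun b => [b]) x : List Bool)) (by fun_prop) ?_
  refine PTime.sumCases (o := fun p : List (Sym ⊕ Bool) × (Sym ⊕ Bool) => p.2)
    (f := fun _ => []) (g := fun q => [q.2]) (by fun_prop) (by fun_prop) (by fun_prop) ?_ ?_
  · intro a x e
    rw [e]; rfl
  · intro a x e
    rw [e]; rfl

theorem lefts_encPair (p : List Sym × List Bool) : lefts (CookLevin.encPair p) = p.1 := by
  obtain ⟨u, w⟩ := p
  unfold lefts CookLevin.encPair
  rw [List.flatMap_append, List.flatMap_map, List.flatMap_map]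
  simp

theorem rights_encPair (p : List Sym × List Bool) : rights (CookLevin.encPair p) = p.2 := by
  obtain ⟨u, w⟩ := p
  unfold rights CookLevin.encPair
  rw [List.flatMap_append, List.flatMap_map, List.flatMap_map]
  simp

/-- a polynomial bound for numbers -/
theorem exists_poly {f : List Sym → ℕ} (hf : PTime f) :
    ∃ p : Polynomial ℕ, ∀ u, f u ≤ p.eval u.length := by
  obtain ⟨q, hq⟩ := hf.sz_le
  obtain ⟨B, hB⟩ := exists_sz_le Sym
  refine ⟨q.comp (Polynomial.C (B + 1) * Polynomial.X + 1), fun u => ?_⟩
  have h1 : sz (f u) ≤ q.eval (sz u) := hq u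
  have h2 : sz u ≤ u.length * (B + 1) + 1 := sz_le_of_forall fun x _ => hB x
  have h3 := eval_mono q h2
  simp only at h3
  rw [sz_nat] at h1
  have h4 : (q.comp (Polynomial.C (B + 1) * Polynomial.X + 1)).eval u.length
      = q.eval (u.length * (B + 1) + 1) := by
    rw [Polynomial.eval_comp]
    simp [mul_comm]
  rw [h4]
  omega

end CntM

open CntM in
theorem cnt (h : StSim) : StCnt := by
  intro hFP L V hL hV
  have hLp : PTime fun u : List Sym => L (parse u) := hL.comp ptime_parse
  obtain ⟨p, hp⟩ := exists_poly hLp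
  -- the verifier
  have hV' : PTime fun w : List (Sym ⊕ Bool) =>
      [decide ((rights w).length = L (parse (lefts w))) && V (parse (lefts w)) (rights w)] := by
    have h1 : PTime fun w : List (Sym ⊕ Bool) => L (parse (lefts w)) := hLp.comp ptime_lefts
    have h2 : PTime fun w : List (Sym ⊕ Bool) => (rights w).length := ptime_rights.length
    have h3 : PTime fun w : List (Sym ⊕ Bool) => V (parse (lefts w)) (rights w) :=
      hV.comp (PTime.pair (ptime_parse.comp ptime_lefts) ptime_rights)
    exact PTime.cons (PTime.and (PTime.natEq h2 h1) h3) (PTime.const _)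
  have hTM : Nonempty (TM2ComputableInPolyTime CookLevin.encPair Computability.encodeBool
      fun q : List Sym × List Bool =>
        decide (q.2.length = L (parse q.1)) && V (parse q.1) q.2) := by
    refine ptime_tm' (fun a b h => EncInj.inj (α := Bool) h) hV' ?_
    intro q
    rw [lefts_encPair, rights_encPair]
    rfl
  obtain ⟨F, hF, hF2⟩ := h Sym Bool (List Sym) ℕ id Nat.bits _ (hFP Sym p _ hTM)
  refine (hF.comp ptime_word).of_eq fun x => ?_
  rw [← id_eq (word x), hF2]
  unfold cntOf
  congr 1
  refine Nat.card_congr (Equiv.subtypeEquivRight fun w => ?_)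
  have h1 := hp (word x)
  rw [parse_word] at h1
  simp only [parse_word, Bool.and_eq_true, decide_eq_true_eq]
  constructor
  · rintro ⟨-, h2⟩
    exact h2
  · rintro ⟨h2, h3⟩
    exact ⟨by rw [h2]; exact h1, h2, h3⟩

end Pool.Agent.Lib.MP_186ff7_lc.Cnt
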