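import Pool.Agent.Lib.MP_186ff7_lc.Cnt.Stmts
import Pool.Agent.Lib.MP_186ff7_lc.Rooms

/-!
# The marriage instance of a word
-/

namespace Pool.Agent.Lib.MP_186ff7_lc.Cnt

open Pool.Agent.Lib.PT

namespace Dag

/-! ### Lists -/

theorem nodup_fillL {N : ℕ} {h : List ℕ} (hn : h.Nodup) : (fillL N h).Nodup := by
  unfold fillL
  refine List.Nodup.append hn (List.Nodup.filter _ List.nodup_range) ?_
  intro x hx hx'
  rw [List.mem_filter] at hx'
  have h := hx'.2
  simp only [Bool.not_eq_true', List.any_eq_false, decide_eq_true_eq] at h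
  exact h x hx rfl

theorem mem_fillL {N : ℕ} {h : List ℕ} (hh : ∀ x ∈ h, x < N) (y : ℕ) :
    y ∈ fillL N h ↔ y < N := by
  unfold fillL
  rw [List.mem_append, List.mem_filter, List.mem_range]
  constructor
  · rintro (h | ⟨h1, h2⟩)
    · exact hh y h
    · exact h1
  · intro h1
    by_cases hb : y ∈ h
    · exact Or.inl hb
    · refine Or.inr ⟨h1, ?_⟩
      simp only [Bool.not_eq_true', List.any_eq_false, decide_eq_true_eq]
      exact fun z hz e => hb (e ▸ hz)

theorem idxOf_fillL_lt {N : ℕ} {P R : List ℕ} {x y : ℕ} (hx : x ∈ P) (hy : y ∉ P) :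
    (fillL N (P ++ R)).idxOf x < (fillL N (P ++ R)).idxOf y := by
  unfold fillL
  rw [List.append_assoc]
  exact idxOf_lt_of_prefix hx hy

theorem idxOf_fillL_lt' {N : ℕ} {P : List ℕ} {x y : ℕ} (hx : x ∈ P) (hy : y ∉ P) :
    (fillL N P).idxOf x < (fillL N P).idxOf y := by
  have := idxOf_fillL_lt (N := N) (R := []) hx hy
  rwa [List.append_nil] at this

theorem length_flatMap2 (f : ℕ → LL) (hf : ∀ z, (f z).length = 2) (m : ℕ) :
    ((List.range m).flatMap f).length = 2 * m := by
  induction m with
  | zero => rfl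
  | succ m ih =>
    rw [List.range_succ, List.flatMap_append, List.length_append, ih, List.flatMap_cons,
      List.flatMap_nil, List.append_nil, hf]
    omega

theorem getD_flatMap2 (f : ℕ → LL) (hf : ∀ z, (f z).length = 2) (m z j : ℕ) (hz : z < m)
    (hj : j < 2) : ((List.range m).flatMap f).getD (2 * z + j) [] = (f z).getD j [] := by
  induction m with
  | zero => omega
  | succ m ih =>
    rw [List.range_succ, List.flatMap_append, List.flatMap_cons, List.flatMap_nil,
      List.append_nil]
    by_cases h : z < m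
    · rw [List.getD_append _ _ _ _ (by rw [length_flatMap2 f hf]; omega), ih h]
    · have : z = m := by omega
      subst this
      rw [List.getD_append_right _ _ _ _ (by rw [length_flatMap2 f hf]; omega),
        length_flatMap2 f hf]
      congr 1
      omega

/-! ### The heads of the lists -/

/-- the head of the list of the man `2 z` -/
def hm (b : List Bool) (z : ℕ) : List ℕ :=
  [2 * z] ++ (if b.getD z false then (List.range z).map fun x => 2 * x else []) ++ [2 * z + 1]

/-- the head of the list of the woman `2 z` -/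
def hw (b : List Bool) (z : ℕ) : List ℕ :=
  [2 * z + 1] ++ (((List.range b.length).filter fun y =>
      decide (z < y) && b.getD y false).map fun y => 2 * y) ++ [2 * z]

theorem mem_mid (b : List Bool) (z y : ℕ) :
    (y ∈ if b.getD z false then (List.range z).map fun x => 2 * x else []) ↔
      b.getD z false = true ∧ ∃ x < z, y = 2 * x := by
  split_ifs with h
  · rw [List.mem_map]
    constructor
    · rintro ⟨x, hx, rfl⟩
      exact ⟨h, x, List.mem_range.1 hx, rfl⟩
    · rintro ⟨-, x, hx, rfl⟩
      exact ⟨x, List.mem_range.2 hx, rfl⟩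
  · exact ⟨fun h' => absurd h' List.not_mem_nil, fun h' => absurd h'.1 h⟩

theorem mem_mid' (b : List Bool) (z y : ℕ) :
    (y ∈ ((List.range b.length).filter fun y =>
      decide (z < y) && b.getD y false).map fun y => 2 * y) ↔
      ∃ u < b.length, z < u ∧ b.getD u false = true ∧ y = 2 * u := by
  simp only [List.mem_map, List.mem_filter, List.mem_range, Bool.and_eq_true, decide_eq_true_eq]
  constructor
  · rintro ⟨u, ⟨h1, h2, h3⟩, rfl⟩
    exact ⟨u, h1, h2, h3, rfl⟩
  · rintro ⟨u, h1, h2, h3, rfl⟩
    exact ⟨u, ⟨h1, h2, h3⟩, rfl⟩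

theorem inj2 : Function.Injective fun x : ℕ => 2 * x := fun x y h => by
  simp only at h
  omega

theorem hm_nodup (b : List Bool) (z : ℕ) : (hm b z).Nodup := by
  unfold hm
  refine List.Nodup.append (List.Nodup.append (List.nodup_singleton _) ?_ ?_)
    (List.nodup_singleton _) ?_
  · split_ifs
    · exact List.nodup_range.map inj2
    · exact List.nodup_nil
  · intro x hx hx'
    rw [List.mem_singleton] at hx
    rw [mem_mid] at hx'
    obtain ⟨-, u, h1, h2⟩ := hx'
    omega
  · intro x hx hx'
    rw [List.mem_singleton] at hx'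
    rw [List.mem_append, List.mem_singleton, mem_mid] at hx
    rcases hx with h | ⟨-, u, h1, h2⟩ <;> omega

theorem hm_lt {b : List Bool} {z : ℕ} (hz : z < b.length) : ∀ x ∈ hm b z, x < 2 * b.length := by
  intro x hx
  unfold hm at hx
  rw [List.mem_append, List.mem_append, List.mem_singleton, List.mem_singleton, mem_mid] at hx
  rcases hx with (h | ⟨-, u, h1, h2⟩) | h <;> omega

theorem hw_nodup (b : List Bool) (z : ℕ) : (hw b z).Nodup := by
  unfold hw
  refine List.Nodup.append (List.Nodup.append (List.nodup_singleton _) ?_ ?_)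
    (List.nodup_singleton _) ?_
  · exact (List.nodup_range.filter _).map inj2
  · intro x hx hx'
    rw [List.mem_singleton] at hx
    rw [mem_mid'] at hx'
    obtain ⟨u, h0, h1, -, h2⟩ := hx'
    omega
  · intro x hx hx'
    rw [List.mem_singleton] at hx'
    rw [List.mem_append, List.mem_singleton, mem_mid'] at hx
    rcases hx with h | ⟨u, h0, h1, -, h2⟩ <;> omega

theorem hw_lt {b : List Bool} {z : ℕ} (hz : z < b.length) : ∀ x ∈ hw b z, x < 2 * b.length := by
  intro x hx
  unfold hw at hx
  rw [List.mem_append, List.mem_append, List.mem_singleton, List.mem_singleton, mem_mid'] at hx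
  rcases hx with (h | ⟨u, h0, h1, -, h2⟩) | h <;> omega

/-! ### The instance -/

/-- the lists of the men -/
def mm (b : List Bool) : LL := (List.range b.length).flatMap fun z => manL b z

/-- the lists of the women -/
def ww (b : List Bool) : LL := (List.range b.length).flatMap fun z => womanL b z

theorem length_mm (b : List Bool) : (mm b).length = 2 * b.length :=
  length_flatMap2 _ (fun _ => rfl) _

theorem length_ww (b : List Bool) : (ww b).length = 2 * b.length :=
  length_flatMap2 _ (fun _ => rfl) _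

theorem mm_zero (b : List Bool) {z : ℕ} (hz : z < b.length) :
    (mm b).getD (2 * z) [] = fillL (2 * b.length) (hm b z) :=
  getD_flatMap2 (fun z => manL b z) (fun _ => rfl) b.length z 0 hz (by omega)

theorem mm_one (b : List Bool) {z : ℕ} (hz : z < b.length) :
    (mm b).getD (2 * z + 1) [] = fillL (2 * b.length) [2 * z + 1, 2 * z] :=
  getD_flatMap2 (fun z => manL b z) (fun _ => rfl) b.length z 1 hz (by omega)

theorem ww_zero (b : List Bool) {z : ℕ} (hz : z < b.length) :
    (ww b).getD (2 * z) [] = fillL (2 * b.length) (hw b z) :=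
  getD_flatMap2 (fun z => womanL b z) (fun _ => rfl) b.length z 0 hz (by omega)

theorem ww_one (b : List Bool) {z : ℕ} (hz : z < b.length) :
    (ww b).getD (2 * z + 1) [] = fillL (2 * b.length) [2 * z, 2 * z + 1] :=
  getD_flatMap2 (fun z => womanL b z) (fun _ => rfl) b.length z 1 hz (by omega)

theorem parity (a : ℕ) : a = 2 * (a / 2) ∨ a = 2 * (a / 2) + 1 := by omega

theorem mm_ok (b : List Bool) (a : ℕ) (ha : a < 2 * b.length) :
    ((mm b).getD a []).Nodup ∧ ∀ x, x ∈ (mm b).getD a [] ↔ x < 2 * b.length := by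
  have hz : a / 2 < b.length := by omega
  rcases parity a with h | h
  · rw [h, mm_zero b hz]
    exact ⟨nodup_fillL (hm_nodup _ _), mem_fillL (hm_lt hz)⟩
  · rw [h, mm_one b hz]
    exact ⟨nodup_fillL (by simp), mem_fillL (by simp; omega)⟩

theorem ww_ok (b : List Bool) (a : ℕ) (ha : a < 2 * b.length) :
    ((ww b).getD a []).Nodup ∧ ∀ x, x ∈ (ww b).getD a [] ↔ x < 2 * b.length := by
  have hz : a / 2 < b.length := by omega
  rcases parity a with h | h
  · rw [h, ww_zero b hz]
    exact ⟨nodup_fillL (hw_nodup _ _), mem_fillL (hw_lt hz)⟩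
  · rw [h, ww_one b hz]
    exact ⟨nodup_fillL (by simp), mem_fillL (by simp; omega)⟩

/-- A list of numbers as a list in `Fin n`. -/
def toFin (n : ℕ) (l : List ℕ) (h : ∀ x, x ∈ l ↔ x < n) : List (Fin n) :=
  l.pmap (fun x hx => (⟨x, hx⟩ : Fin n)) fun x hx => (h x).1 hx

theorem map_toFin (n : ℕ) (l : List ℕ) (h : ∀ x, x ∈ l ↔ x < n) :
    (toFin n l h).map Fin.val = l := by
  unfold toFin
  rw [List.map_pmap]
  simp

theorem nodup_toFin {n : ℕ} {l : List ℕ} (h : ∀ x, x ∈ l ↔ x < n) (hl : l.Nodup) :
    (toFin n l h).Nodup := by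
  refine List.Nodup.pmap ?_ hl
  intro x _ y _ e
  exact congrArg Fin.val e

theorem mem_toFin {n : ℕ} {l : List ℕ} (h : ∀ x, x ∈ l ↔ x < n) (x : Fin n) :
    x ∈ toFin n l h := by
  unfold toFin
  rw [List.mem_pmap]
  exact ⟨x.1, (h x.1).2 x.2, rfl⟩

theorem idxOf_toFin {n : ℕ} {l : List ℕ} (h : ∀ x, x ∈ l ↔ x < n) (x : Fin n) :
    (toFin n l h).idxOf x = l.idxOf x.val := by
  have := idxOf_map_val (toFin n l h) x
  rw [map_toFin] at this
  exact this.symm

/-- The instance. -/
def inst (b : List Bool) : Marriage where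
  n := 2 * b.length
  men a := toFin _ ((mm b).getD a []) (mm_ok b a a.2).2
  women w := toFin _ ((ww b).getD w []) (ww_ok b w w.2).2
  men_nodup a := nodup_toFin _ (mm_ok b a a.2).1
  men_mem _ w := mem_toFin _ w
  women_nodup w := nodup_toFin _ (ww_ok b w w.2).1
  women_mem _ a := mem_toFin _ a

theorem ofFn_getD (L : LL) (n : ℕ) (h : L.length = n) :
    (List.ofFn fun a : Fin n => L.getD a []) = L := by
  refine List.ext_getElem (by simp [h]) ?_
  intro i h1 h2
  rw [List.getElem_ofFn, List.getD_eq_getElem?_getD, List.getElem?_eq_getElem h2,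
    Option.getD_some]

theorem mlists_inst (b : List Bool) : mlists (inst b) = marL b := by
  unfold mlists marL
  have h1 : (List.ofFn fun a => ((inst b).men a).map Fin.val) = mm b := by
    have : (fun a => ((inst b).men a).map Fin.val) =
        fun a : Fin (2 * b.length) => (mm b).getD a [] := by
      funext a
      exact map_toFin _ _ (mm_ok b a a.2).2
    rw [this]
    exact ofFn_getD _ _ (length_mm b)
  have h2 : (List.ofFn fun a => ((inst b).women a).map Fin.val) = ww b := by
    have : (fun a => ((inst b).women a).map Fin.val) =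
        fun a : Fin (2 * b.length) => (ww b).getD a [] := by
      funext a
      exact map_toFin _ _ (ww_ok b a a.2).2
    rw [this]
    exact ofFn_getD _ _ (length_ww b)
  rw [h1, h2]
  rfl

/-- the numbering of the pairs -/
def num2 (k : ℕ) : Fin k × Bool ≃ Fin (2 * k) where
  toFun p := ⟨2 * p.1.1 + (if p.2 then 1 else 0), by
    have := p.1.2
    split_ifs <;> omega⟩
  invFun i := (⟨i.1 / 2, by have := i.2; omega⟩, decide (i.1 % 2 = 1))
  left_inv := by
    rintro ⟨⟨z, hz⟩, c⟩
    cases c
    · simp
    · simp only [if_true, Prod.mk.injEq, Fin.mk.injEq, decide_eq_true_eq]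
      omega
  right_inv := by
    rintro ⟨i, hi⟩
    simp only [decide_eq_true_eq, Fin.mk.injEq]
    split_ifs <;> omega

theorem num2_false (k : ℕ) (z : Fin k) : (num2 k (z, false)).1 = 2 * z.1 := rfl

theorem num2_true (k : ℕ) (z : Fin k) : (num2 k (z, true)).1 = 2 * z.1 + 1 := rfl

theorem num2_ne {k : ℕ} {y p : Fin k × Bool} (h : y ≠ p) : (num2 k y).1 ≠ (num2 k p).1 :=
  fun e => h ((num2 k).injective (Fin.ext e))

theorem rM_eq (b : List Bool) (a w : Fin (2 * b.length)) :
    (inst b).rM a w = ((mm b).getD a []).idxOf w.val := idxOf_toFin (mm_ok b a a.2).2 _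

theorem rW_eq (b : List Bool) (a w : Fin (2 * b.length)) :
    (inst b).rW w a = ((ww b).getD w []).idxOf a.val := idxOf_toFin (ww_ok b w w.2).2 _

theorem card_perm {A : Type} {n : ℕ} (e : A ≃ Fin n) (R S : Fin n → Fin n → ℕ) :
    Nat.card {σ : Equiv.Perm (Fin n) // ∀ a w, ¬ (R a w < R a (σ a) ∧ S w a < S w (σ.symm w))} =
    Nat.card {σ : Equiv.Perm A // ∀ a w, ¬ (R (e a) (e w) < R (e a) (e (σ a)) ∧
      S (e w) (e a) < S (e w) (e (σ.symm w)))} := by
  symm
  refine Nat.card_congr (e.permCongr.subtypeEquiv fun σ => ?_)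
  have e2 : ∀ w, (e.permCongr σ).symm w = e (σ.symm (e.symm w)) := by
    intro w
    rw [Equiv.symm_apply_eq]
    simp
  constructor
  · intro hσ a w
    have := hσ (e.symm a) (e.symm w)
    rw [Equiv.apply_symm_apply, Equiv.apply_symm_apply] at this
    rw [e2]
    exact this
  · intro hσ a w
    have := hσ (e a) (e w)
    rw [e2, Equiv.symm_apply_apply, Equiv.permCongr_apply, Equiv.symm_apply_apply] at this
    exact this

end Dag

open Dag in
theorem dag (h : StDagAbs) : StDag := by
  intro b
  refine ⟨inst b, mlists_inst b, rfl, ?_⟩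
  rw [Marriage.card_stable]
  set k := b.length with hk
  set e := num2 k with he
  set rM : Fin k × Bool → Fin k × Bool → ℕ := fun a w => (inst b).rM (e a) (e w) with hrM
  set rW : Fin k × Bool → Fin k × Bool → ℕ := fun w a => (inst b).rW (e w) (e a) with hrW
  have hget : ∀ z : Fin k, b.getD z false = b.get z := by
    intro z
    rw [List.getD_eq_getElem?_getD, List.getElem?_eq_getElem z.2, Option.getD_some]
    rfl
  have M0 : ∀ (z : Fin k) y, rM (z, false) y = (fillL (2 * k) (hm b z)).idxOf (e y).1 := by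
    intro z y
    rw [hrM]
    simp only
    rw [rM_eq, ← mm_zero b z.2]
    rfl
  have M1 : ∀ (z : Fin k) y, rM (z, true) y =
      (fillL (2 * k) [2 * z.1 + 1, 2 * z.1]).idxOf (e y).1 := by
    intro z y
    rw [hrM]
    simp only
    rw [rM_eq, ← mm_one b z.2]
    rfl
  have W0 : ∀ (z : Fin k) y, rW (z, false) y = (fillL (2 * k) (hw b z)).idxOf (e y).1 := by
    intro z y
    rw [hrW]
    simp only
    rw [rW_eq, ← ww_zero b z.2]
    rfl
  have W1 : ∀ (z : Fin k) y, rW (z, true) y =
      (fillL (2 * k) [2 * z.1, 2 * z.1 + 1]).idxOf (e y).1 := by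
    intro z y
    rw [hrW]
    simp only
    rw [rW_eq, ← ww_one b z.2]
    rfl
  have nf : ∀ {z : Fin k} {y : Fin k × Bool}, y ≠ (z, false) → (e y).1 ≠ 2 * z.1 := by
    intro z y hy
    exact num2_ne hy
  have nt : ∀ {z : Fin k} {y : Fin k × Bool}, y ≠ (z, true) → (e y).1 ≠ 2 * z.1 + 1 := by
    intro z y hy
    exact num2_ne hy
  have ef : ∀ z : Fin k, (e (z, false)).1 = 2 * z.1 := fun _ => rfl
  have et : ∀ z : Fin k, (e (z, true)).1 = 2 * z.1 + 1 := fun _ => rfl
  have key := h k (fun z x => b.get z = true ∧ x < z) rM rW (fun z x hE => hE.2)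
    (by -- 1
      intro z y hy
      rw [M0, M0, ef]
      unfold hm
      rw [List.append_assoc]
      exact idxOf_fillL_lt (by simp) (by simpa using nf hy))
    (by -- 2
      rintro z x ⟨h1, h2⟩
      rw [M0, M0, ef, et]
      unfold hm
      refine idxOf_fillL_lt ?_ ?_
      · rw [List.mem_append, mem_mid, hget]
        exact Or.inr ⟨h1, x.1, h2, rfl⟩
      · rw [List.mem_append, mem_mid, List.mem_singleton]
        rintro (h | ⟨-, u, h3, h4⟩) <;> omega)
    (by -- 3
      intro z y h1 h2 h3
      rw [M0, M0, et]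
      refine idxOf_fillL_lt' (by simp [hm]) ?_
      unfold hm
      rw [List.mem_append, List.mem_append, mem_mid, List.mem_singleton, List.mem_singleton, hget]
      rintro ((h4 | ⟨h5, u, h6, h7⟩) | h4)
      · exact nf h1 h4
      · have h8 : u < k := h6.trans z.2
        refine h3 ⟨u, h8⟩ ⟨h5, h6⟩ ?_
        apply e.injective
        apply Fin.ext
        rw [h7]
        rfl
      · exact nt h2 h4)
    (by -- 4
      intro z y hy
      rw [M1, M1, et]
      exact idxOf_fillL_lt (P := [2 * z.1 + 1]) (R := [2 * z.1]) (by simp) (by simpa using nt hy))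
    (by -- 5
      intro z y hy hy'
      rw [M1, M1, ef]
      exact idxOf_fillL_lt' (by simp) (by simpa using ⟨nt hy, nf hy'⟩))
    (by -- 6
      intro z y hy
      rw [W0, W0, et]
      unfold hw
      rw [List.append_assoc]
      exact idxOf_fillL_lt (by simp) (by simpa using nt hy))
    (by -- 7
      rintro z u ⟨h1, h2⟩
      rw [W0, W0, ef, ef]
      unfold hw
      refine idxOf_fillL_lt ?_ ?_
      · rw [List.mem_append, mem_mid']
        exact Or.inr ⟨u.1, u.2, h2, (hget u).trans h1, rfl⟩
      · rw [List.mem_append, mem_mid', List.mem_singleton]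
        rintro (h | ⟨v, h0, h3, -, h4⟩) <;> omega)
    (by -- 8
      intro z y h1 h2 h3
      rw [W0, W0, ef]
      refine idxOf_fillL_lt' (by simp [hw]) ?_
      unfold hw
      rw [List.mem_append, List.mem_append, mem_mid', List.mem_singleton, List.mem_singleton]
      rintro ((h4 | ⟨u, h5, h6, h7, h8⟩) | h4)
      · exact nt h1 h4
      · refine h3 ⟨u, h5⟩ ⟨(hget ⟨u, h5⟩).symm.trans h7, h6⟩ ?_
        apply e.injective
        apply Fin.ext
        rw [h8]
        rfl
      · exact nf h2 h4)
    (by -- 9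
      intro z y hy
      rw [W1, W1, ef]
      exact idxOf_fillL_lt (P := [2 * z.1]) (R := [2 * z.1 + 1]) (by simp) (by simpa using nf hy))
    (by -- 10
      intro z y hy hy'
      rw [W1, W1, et]
      exact idxOf_fillL_lt' (by simp) (by simpa using ⟨nf hy, nt hy'⟩))
  have c1 : Nat.card {σ : Equiv.Perm (Fin (inst b).n) // StablePerm (inst b).rM (inst b).rW σ} =
      Nat.card {σ : Equiv.Perm (Fin k × Bool) //
        ∀ a w, ¬ (rM a w < rM a (σ a) ∧ rW w a < rW w (σ.symm w))} :=
    card_perm e (inst b).rM (inst b).rW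
  have c2 : Nat.card {s : Fin k → Bool // ∀ z x, (b.get z = true ∧ x < z) → s z = true →
      s x = true} = Nat.card (Closed b) := by
    refine Nat.card_congr (Equiv.subtypeEquivRight fun s => ?_)
    constructor
    · intro h z x h1 h2 h3
      exact h z x ⟨h1, h2⟩ h3
    · intro h z x h1 h3
      exact h z x h1.1 h1.2 h3
  rw [c1, key, c2]

end Pool.Agent.Lib.MP_186ff7_lc.Cnt
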