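import Pool.Agent.Lib.MP_186ff7_lc.Cnt.Stmts

/-!
# The stable matchings of the abstract marriage instance are the closed sets
-/

namespace Pool.Agent.Lib.MP_186ff7_lc.Cnt

namespace DagAbsAux

/-- the matching of a set -/
def fn {k : ℕ} (s : Fin k → Bool) (p : Fin k × Bool) : Fin k × Bool := (p.1, xor p.2 (s p.1))

lemma fn_fn {k : ℕ} (s : Fin k → Bool) (p : Fin k × Bool) : fn s (fn s p) = p := by
  simp [fn]

/-- the matching of a set -/
def pm {k : ℕ} (s : Fin k → Bool) : Equiv.Perm (Fin k × Bool) :=
  ⟨fn s, fn s, fn_fn s, fn_fn s⟩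

lemma pm_apply {k : ℕ} (s : Fin k → Bool) (z : Fin k) (c : Bool) :
    pm s (z, c) = (z, xor c (s z)) := rfl

lemma pm_symm_apply {k : ℕ} (s : Fin k → Bool) (z : Fin k) (c : Bool) :
    (pm s).symm (z, c) = (z, xor c (s z)) := rfl

/-- the hypotheses on the positions -/
structure Hyp (k : ℕ) (E : Fin k → Fin k → Prop) (rM rW : Fin k × Bool → Fin k × Bool → ℕ) :
    Prop where
  hE : ∀ z x, E z x → x < z
  m1 : ∀ z y, y ≠ (z, false) → rM (z, false) (z, false) < rM (z, false) y
  m2 : ∀ z x, E z x → rM (z, false) (x, false) < rM (z, false) (z, true)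
  m3 : ∀ z y, y ≠ (z, false) → y ≠ (z, true) → (∀ x, E z x → y ≠ (x, false)) →
    rM (z, false) (z, true) < rM (z, false) y
  m4 : ∀ z y, y ≠ (z, true) → rM (z, true) (z, true) < rM (z, true) y
  m5 : ∀ z y, y ≠ (z, true) → y ≠ (z, false) → rM (z, true) (z, false) < rM (z, true) y
  w1 : ∀ z y, y ≠ (z, true) → rW (z, false) (z, true) < rW (z, false) y
  w2 : ∀ z u, E u z → rW (z, false) (u, false) < rW (z, false) (z, false)
  w3 : ∀ z y, y ≠ (z, true) → y ≠ (z, false) → (∀ u, E u z → y ≠ (u, false)) →
    rW (z, false) (z, false) < rW (z, false) y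
  w4 : ∀ z y, y ≠ (z, false) → rW (z, true) (z, false) < rW (z, true) y
  w5 : ∀ z y, y ≠ (z, false) → y ≠ (z, true) → rW (z, true) (z, true) < rW (z, true) y

/-- stable matchings -/
def Stab {k : ℕ} (rM rW : Fin k × Bool → Fin k × Bool → ℕ) (σ : Equiv.Perm (Fin k × Bool)) :
    Prop := ∀ a w, ¬ (rM a w < rM a (σ a) ∧ rW w a < rW w (σ.symm w))

variable {k : ℕ} {E : Fin k → Fin k → Prop} {rM rW : Fin k × Bool → Fin k × Bool → ℕ}

lemma step1 (h : Hyp k E rM rW) {σ : Equiv.Perm (Fin k × Bool)} (hσ : Stab rM rW σ) :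
    ∀ (n : ℕ) (y x : Fin k), k - y.val = n → E y x → σ (y, false) ≠ (x, false) := by
  intro n
  induction n using Nat.strong_induction_on with
  | _ n ih =>
    intro y x hn hyx hσy
    have hxy : x < y := h.hE y x hyx
    -- the man `(y, true)` has his first choice
    have h1 : σ (y, true) = (y, true) := by
      by_contra hne
      refine hσ (y, true) (y, true) ⟨h.m4 y _ hne, ?_⟩
      apply h.w5 y
      · intro h2
        rw [Equiv.symm_apply_eq] at h2
        rw [hσy] at h2
        simp at h2
      · intro h2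
        rw [Equiv.symm_apply_eq] at h2
        exact hne h2.symm
    -- the woman `(y, false)`
    have h2 : ∃ u, E u y ∧ σ.symm (y, false) = (u, false) := by
      by_contra hne
      push Not at hne
      refine hσ (y, false) (y, false) ⟨?_, ?_⟩
      · apply h.m1 y
        rw [hσy]
        intro h3
        simp only [Prod.mk.injEq, and_true] at h3
        exact absurd h3 (ne_of_lt hxy)
      · apply h.w3 y
        · intro h3
          rw [Equiv.symm_apply_eq, h1] at h3
          simp at h3
        · intro h3
          rw [Equiv.symm_apply_eq, hσy] at h3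
          simp only [Prod.mk.injEq, and_true] at h3
          exact absurd h3.symm (ne_of_lt hxy)
        · exact hne
    obtain ⟨u, hu, hσu⟩ := h2
    rw [Equiv.symm_apply_eq] at hσu
    have hyu : y < u := h.hE u y hu
    exact ih (k - u.val) (by have := u.2; have := y.2; omega) u y rfl hu hσu.symm

lemma step2 (h : Hyp k E rM rW) {σ : Equiv.Perm (Fin k × Bool)} (hσ : Stab rM rW σ)
    (z : Fin k) : (σ (z, false) = (z, false) ∧ σ (z, true) = (z, true)) ∨
    (σ (z, false) = (z, true) ∧ σ (z, true) = (z, false)) := by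
  have h0 : σ (z, false) = (z, false) ∨ σ (z, false) = (z, true) := by
    by_contra hne
    push Not at hne
    refine hσ (z, false) (z, true) ⟨?_, ?_⟩
    · exact h.m3 z _ hne.1 hne.2 (fun x hx => step1 h hσ _ z x rfl hx)
    · apply h.w4 z
      intro h1
      rw [Equiv.symm_apply_eq] at h1
      exact hne.2 h1.symm
  rcases h0 with h0 | h0
  · left
    refine ⟨h0, ?_⟩
    by_contra hne
    refine hσ (z, true) (z, true) ⟨h.m4 z _ hne, ?_⟩
    apply h.w5 z
    · intro h1
      rw [Equiv.symm_apply_eq, h0] at h1
      simp at h1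
    · intro h1
      rw [Equiv.symm_apply_eq] at h1
      exact hne h1.symm
  · right
    refine ⟨h0, ?_⟩
    by_contra hne
    refine hσ (z, true) (z, false) ⟨?_, ?_⟩
    · apply h.m5 z _ _ hne
      intro h1
      have := σ.injective (h0.trans h1.symm)
      simp at this
    · apply h.w1 z
      intro h1
      rw [Equiv.symm_apply_eq] at h1
      exact hne h1.symm

lemma closed_of_stab (h : Hyp k E rM rW) {s : Fin k → Bool} (hσ : Stab rM rW (pm s))
    (z x : Fin k) (hzx : E z x) (hz : s z = true) : s x = true := by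
  by_contra hx
  rw [Bool.not_eq_true] at hx
  refine hσ (z, false) (x, false) ⟨?_, ?_⟩
  · rw [pm_apply, hz]
    exact h.m2 z x hzx
  · rw [pm_symm_apply, hx]
    exact h.w2 x z hzx

lemma stab_of_closed (h : Hyp k E rM rW) {s : Fin k → Bool}
    (hs : ∀ z x, E z x → s z = true → s x = true) : Stab rM rW (pm s) := by
  rintro ⟨z, c⟩ ⟨x, d⟩ ⟨h1, h2⟩
  rw [pm_apply] at h1
  rw [pm_symm_apply] at h2
  by_cases hzx : z = x
  · subst hzx
    cases hs1 : s z <;> cases c <;> cases d <;> simp only [hs1, Bool.xor_false, Bool.xor_true,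
      Bool.not_false, Bool.not_true, lt_self_iff_false] at h1 h2
    · exact absurd h1 (lt_asymm (h.m1 z (z, true) (by simp)))
    · exact absurd h1 (lt_asymm (h.m4 z (z, false) (by simp)))
    · exact absurd h2 (lt_asymm (h.w1 z (z, false) (by simp)))
    · exact absurd h2 (lt_asymm (h.w4 z (z, true) (by simp)))
  · have hne : ∀ a b : Bool, (x, a) ≠ (z, b) := by
      intro a b hab
      simp only [Prod.mk.injEq] at hab
      exact hzx hab.1.symm
    cases c with
    | true =>
      have e1 := h.m4 z (x, d) (hne _ _)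
      have e2 := h.m5 z (x, d) (hne _ _) (hne _ _)
      cases hs1 : s z <;> simp only [hs1, Bool.xor_false, Bool.xor_true, Bool.not_true] at h1
      · omega
      · omega
    | false =>
      cases hs1 : s z with
      | false =>
        have e1 := h.m1 z (x, d) (hne _ _)
        simp only [hs1, Bool.xor_false] at h1
        omega
      | true =>
        simp only [hs1, Bool.xor_true, Bool.not_false] at h1
        by_cases hE : E z x ∧ d = false
        · obtain ⟨hE, rfl⟩ := hE
          have hx := hs z x hE hs1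
          rw [hx] at h2
          simp only [Bool.xor_true, Bool.not_false] at h2
          have e1 := h.w1 x (z, false) (by simp)
          omega
        · have e1 := h.m3 z (x, d) (hne _ _) (hne _ _) (by
            intro x' hx' hxx
            simp only [Prod.mk.injEq] at hxx
            obtain ⟨rfl, rfl⟩ := hxx
            exact hE ⟨hx', rfl⟩)
          omega

end DagAbsAux

open DagAbsAux in
/-- The stable matchings of the abstract marriage instance are the closed sets. -/
theorem dagAbs : StDagAbs := by
  intro k E rM rW hE m1 m2 m3 m4 m5 w1 w2 w3 w4 w5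
  have h : Hyp k E rM rW := ⟨hE, m1, m2, m3, m4, m5, w1, w2, w3, w4, w5⟩
  let f : {s : Fin k → Bool // ∀ z x, E z x → s z = true → s x = true} →
      {σ : Equiv.Perm (Fin k × Bool) //
        ∀ a w, ¬ (rM a w < rM a (σ a) ∧ rW w a < rW w (σ.symm w))} :=
    fun s => ⟨pm s.1, stab_of_closed h s.2⟩
  have hinj : Function.Injective f := by
    intro s t hst
    have h1 : pm s.1 = pm t.1 := congrArg Subtype.val hst
    apply Subtype.ext
    funext z
    have h2 := congrArg (fun σ : Equiv.Perm (Fin k × Bool) => (σ (z, false)).2) h1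
    simpa [pm_apply] using h2
  have hsurj : Function.Surjective f := by
    rintro ⟨σ, hσ⟩
    have hσ' : Stab rM rW σ := hσ
    have heq : pm (fun z => (σ (z, false)).2) = σ := by
      ext1 ⟨z, c⟩
      rw [pm_apply]
      rcases step2 h hσ' z with ⟨h1, h2⟩ | ⟨h1, h2⟩
      · cases c
        · simp [h1]
        · simp [h1, h2]
      · cases c
        · simp [h1]
        · simp [h1, h2]
    refine ⟨⟨fun z => (σ (z, false)).2, ?_⟩, ?_⟩
    · intro z x
      apply closed_of_stab h
      rw [heq]
      exact hσ'
    · exact Subtype.ext heq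
  exact (Nat.card_congr (Equiv.ofBijective f ⟨hinj, hsurj⟩)).symm

end Pool.Agent.Lib.MP_186ff7_lc.Cnt
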