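import Pool.Agent.Lib.CookLevin.NP
import Pool.Agent.Lib.MP_186ff7_lc.Alg

/-!
# FP = #P, and the marriage instances with a given number of stable matchings: definitions
-/

namespace Pool.Agent.Lib.MP_186ff7_lc.Cnt

open Turing

/-- **FP = #P**: for every polynomial `p` and every predicate `V` on pairs (input, certificate) that
is decided in polynomial time by a Turing machine, the number of all binary words `w` of length at
most `p (|x|)` for which `V (x, w)` is true, written in binary, is computable from the word `x` in
polynomial time. -/
def FPeqSharpP : Prop :=
  ∀ (Γ : Type) [Fintype Γ] (p : Polynomial ℕ) (V : List Γ × List Bool → Bool),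
    Nonempty (TM2ComputableInPolyTime CookLevin.encPair Computability.encodeBool V) →
    Nonempty (TM2ComputableInPolyTime (id : List Γ → List Γ) Nat.bits fun x =>
      Nat.card {w : List Bool // w.length ≤ p.eval x.length ∧ V (x, w) = true})

/-- Lists of lists of numbers. -/
abbrev LL : Type := List (List ℕ)

/-- The number of words of length `L` for which `V` is true. -/
noncomputable def cntOf (L : ℕ) (V : List Bool → Bool) : ℕ :=
  Nat.card {w : List Bool // w.length = L ∧ V w = true}

/-! ### Marriage instances -/

/-- The numbers less than `N`, first those in `h`. -/
def fillL (N : ℕ) (h : List ℕ) : List ℕ :=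
  h ++ (List.range N).filter fun y => !(h.any fun z => decide (z = y))

/-- The lists of the men `2 z` and `2 z + 1`. The element `z` with `b z = true` implies all elements
`x < z`. -/
def manL (b : List Bool) (z : ℕ) : LL :=
  [fillL (2 * b.length) ([2 * z] ++ (if b.getD z false then (List.range z).map fun x => 2 * x
      else []) ++ [2 * z + 1]),
   fillL (2 * b.length) [2 * z + 1, 2 * z]]

/-- The lists of the women `2 z` and `2 z + 1`. -/
def womanL (b : List Bool) (z : ℕ) : LL :=
  [fillL (2 * b.length) ([2 * z + 1] ++ (((List.range b.length).filter fun y =>
      decide (z < y) && b.getD y false).map fun y => 2 * y) ++ [2 * z]),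
   fillL (2 * b.length) [2 * z, 2 * z + 1]]

/-- The lists of all men, then the lists of all women. -/
def marL (b : List Bool) : LL :=
  ((List.range b.length).flatMap fun z => manL b z) ++
    (List.range b.length).flatMap fun z => womanL b z

/-- The closed sets. -/
abbrev Closed (b : List Bool) : Type :=
  {s : Fin b.length → Bool //
    ∀ z x : Fin b.length, b.get z = true → x < z → s z = true → s x = true}

/-- The word `b` for the number with the binary digits `l` (the last digit of `l` is the leading
one). -/
def code (l : List Bool) : List Bool :=
  l.reverse.tail.flatMap fun c => if c then [false, true] else [false]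

/-! ### Matchings as binary words -/

/-- A list `p` of `n` numbers as a matrix of zeros and ones. -/
def encW (n : ℕ) (p : List ℕ) : List Bool :=
  (List.range n).flatMap fun a => (List.range n).map fun c => decide (p.getD a n = c)

/-- The list of the positions of the ones (a row of zeros gives the number `n`). -/
def decW (n : ℕ) (w : List Bool) : List ℕ :=
  (List.range n).map fun a => ((w.drop (a * n)).take n).idxOf true

/-- The word describes a stable matching of the roommates instance with the lists `x`. -/
def okR (x : LL) (w : List Bool) : Bool :=
  decide (encW x.length (decW x.length w) = w) &&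
  ((List.range x.length).all fun a =>
    decide ((decW x.length w).getD a x.length < x.length) &&
    decide ((decW x.length w).getD ((decW x.length w).getD a x.length) x.length = a)) &&
  (List.range x.length).all fun a => (List.range x.length).all fun b =>
    !(decide ((x.getD a []).idxOf b < (x.getD a []).idxOf ((decW x.length w).getD a x.length)) &&
      decide ((x.getD b []).idxOf a < (x.getD b []).idxOf ((decW x.length w).getD b x.length)))

/-- The number of men. -/
def menN (y : LL) : ℕ := (y.getD 0 []).length

/-- The word describes a stable matching of the marriage instance with the lists `y`. -/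
def okM (y : LL) (w : List Bool) : Bool :=
  decide (encW (menN y) (decW (menN y) w) = w) &&
  ((List.range (menN y)).all fun a => (List.range (menN y)).all fun c =>
    decide (a = c) || decide ((decW (menN y) w).getD a (menN y) = menN y) ||
      !decide ((decW (menN y) w).getD a (menN y) = (decW (menN y) w).getD c (menN y))) &&
  (List.range (menN y)).all fun a => (List.range (menN y)).all fun v =>
    !((decide ((decW (menN y) w).getD a (menN y) = menN y) ||
        decide ((y.getD a []).idxOf v < (y.getD a []).idxOf
          ((decW (menN y) w).getD a (menN y)))) &&
      (List.range (menN y)).all fun c =>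
        (!decide ((decW (menN y) w).getD c (menN y) = v)) ||
        decide ((y.getD (menN y + v) []).idxOf a < (y.getD (menN y + v) []).idxOf c))

/-- The lists of a roommates instance. -/
def rlists (I : Roommates) : LL := List.ofFn fun a => (I.list a).map Fin.val

/-- The partners. -/
def plR {I : Roommates} (μ : I.Stable) : List ℕ := List.ofFn fun a => (μ.1 a).val

/-- The lists of a marriage instance. -/
def mlists (J : Marriage) : LL := (List.ofFn fun a => (J.men a).map Fin.val) ++
  List.ofFn fun w => (J.women w).map Fin.val

/-- The partners of the men (`n` for single men). -/
def plM {J : Marriage} (ν : J.Stable) : List ℕ :=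
  List.ofFn fun a => ((ν.1 a).map Fin.val).getD J.n

end Pool.Agent.Lib.MP_186ff7_lc.Cnt
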