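import Pool.Agent.Lib.MP_186ff7_lc.Cnt.Stmts

/-!
# Matchings as binary words: the words
-/

namespace Pool.Agent.Lib.MP_186ff7_lc.Cnt

open Turing Pool.Agent.Lib.PT

/-! ### Blocks -/

/-- A list that consists of `k` blocks of length `n`. -/
theorem length_blocks (n k : ℕ) (f : ℕ → List Bool) (hf : ∀ a, (f a).length = n) :
    ((List.range k).flatMap f).length = k * n := by
  induction k with
  | zero => simp
  | succ k ih =>
    rw [List.range_succ, List.flatMap_append, List.length_append, ih]
    simp [hf, Nat.add_mul]

/-- A block. -/
theorem block_eq (n k : ℕ) (f : ℕ → List Bool) (hf : ∀ a, (f a).length = n) {a : ℕ} (ha : a < k) :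
    ((((List.range k).flatMap f).drop (a * n)).take n) = f a := by
  have h1 : k = a + (1 + (k - a - 1)) := by omega
  rw [h1, List.range_add, List.flatMap_append, List.drop_append_of_le_length
    (by rw [length_blocks n a f hf])]
  rw [List.drop_eq_nil_of_le (by rw [length_blocks n a f hf]), List.nil_append, List.range_add,
    List.map_append, List.flatMap_append]
  have h2 : (List.map (fun x => a + x) (List.range 1)).flatMap f = f a := by
    simp
  rw [h2, List.take_append_of_le_length (by rw [hf]), List.take_of_length_le (by rw [hf])]

theorem length_encW (n : ℕ) (p : List ℕ) : (encW n p).length = n * n :=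
  length_blocks n n _ fun a => by simp

/-- The position of the one in a row. -/
theorem idxOf_row (n v : ℕ) (hv : v ≤ n) :
    ((List.range n).map fun c => decide (v = c)).idxOf true = v := by
  rcases hv.lt_or_eq with h | h
  · have h1 : n = v + (1 + (n - v - 1)) := by omega
    rw [h1, List.range_add, List.map_append]
    have h2 : true ∉ (List.range v).map fun c => decide (v = c) := by
      intro h
      rw [List.mem_map] at h
      obtain ⟨c, hc, e⟩ := h
      rw [List.mem_range] at hc
      rw [decide_eq_true_eq] at e
      omega
    rw [List.idxOf_append_of_notMem h2, List.length_map, List.length_range, List.range_add,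
      List.map_append, List.map_append]
    have h3 : List.map (fun c => decide (v = c)) (List.map (fun x => v + x) (List.range 1)) =
        [true] := by simp
    rw [h3, List.singleton_append, List.idxOf_cons_self, Nat.add_zero]
  · subst h
    rw [List.idxOf_eq_length_iff.2, List.length_map, List.length_range]
    intro h
    rw [List.mem_map] at h
    obtain ⟨c, hc, e⟩ := h
    rw [List.mem_range] at hc
    rw [decide_eq_true_eq] at e
    omega

theorem length_decW (n : ℕ) (w : List Bool) : (decW n w).length = n := by
  unfold decW
  simp

theorem getD_decW (n : ℕ) (w : List Bool) {a : ℕ} (ha : a < n) (d : ℕ) :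
    (decW n w).getD a d = ((w.drop (a * n)).take n).idxOf true := by
  unfold decW
  rw [List.getD_eq_getElem?_getD, List.getElem?_map, List.getElem?_range ha]
  rfl

theorem getD_decW_le (n : ℕ) (w : List Bool) {a : ℕ} (ha : a < n) (d : ℕ) :
    (decW n w).getD a d ≤ n := by
  rw [getD_decW n w ha]
  exact List.idxOf_le_length.trans (List.length_take_le _ _)

/-- Two lists of the same length with the same entries. -/
theorem list_ext_getD {n : ℕ} {p q : List ℕ} (hp : p.length = n) (hq : q.length = n)
    (h : ∀ a < n, p.getD a n = q.getD a n) : p = q := by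
  refine List.ext_getElem (by rw [hp, hq]) ?_
  intro i h1 h2
  have := h i (by rw [← hp]; exact h1)
  rwa [List.getD_eq_getElem?_getD, List.getD_eq_getElem?_getD, List.getElem?_eq_getElem h1,
    List.getElem?_eq_getElem h2, Option.getD_some, Option.getD_some] at this

theorem decW_encW {n : ℕ} {p : List ℕ} (hp : p.length = n) (h : ∀ a < n, p.getD a n ≤ n) :
    decW n (encW n p) = p := by
  refine list_ext_getD (length_decW _ _) hp ?_
  intro a ha
  rw [getD_decW n _ ha]
  have h1 : (((encW n p).drop (a * n)).take n) =
      (List.range n).map fun c => decide (p.getD a n = c) := by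
    unfold encW
    exact block_eq n n _ (fun a => by simp) ha
  rw [h1]
  exact idxOf_row n _ (h a ha)

/-! ### Polynomial time -/

theorem ptime_encW : PTime (fun p : ℕ × List ℕ => encW p.1 p.2) := by
  unfold encW
  refine PTime.flatMap (l := fun p : ℕ × List ℕ => List.range p.1)
    (f := fun p a => (List.range p.1).map fun c => decide (p.2.getD a p.1 = c)) (by fun_prop) ?_
  exact PTime.map (l := fun q : (ℕ × List ℕ) × ℕ => List.range q.1.1)
    (f := fun q c => decide (q.1.2.getD q.2 q.1.1 = c)) (by fun_prop) (by fun_prop)

theorem ptime_decW : PTime (fun p : ℕ × List Bool => decW p.1 p.2) := by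
  unfold decW
  refine PTime.map (l := fun p : ℕ × List Bool => List.range p.1)
    (f := fun p a => ((p.2.drop (a * p.1)).take p.1).idxOf true) (by fun_prop) ?_
  exact PTime.idxOf (by fun_prop) (by fun_prop)

end Pool.Agent.Lib.MP_186ff7_lc.Cnt
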