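import Pool.Agent.Lib.MP_186ff7_lc.Cnt.EncW

/-!
# The stable matchings of a marriage instance as binary words
-/

namespace Pool.Agent.Lib.MP_186ff7_lc.Cnt

open Turing Pool.Agent.Lib.PT

namespace MarrAux

/-! ### Polynomial time -/

section

variable {α : Type} [Enc α]

@[fun_prop] theorem pt_menN {f : α → LL} (hf : PTime f) : PTime fun a => menN (f a) := by
  unfold menN
  fun_prop

@[fun_prop] theorem pt_decW {n : α → ℕ} {w : α → List Bool} (hn : PTime n) (hw : PTime w) :
    PTime fun a => decW (n a) (w a) :=
  ptime_decW.comp (hn.pair hw)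

@[fun_prop] theorem pt_encW {n : α → ℕ} {p : α → List ℕ} (hn : PTime n) (hp : PTime p) :
    PTime fun a => encW (n a) (p a) :=
  ptime_encW.comp (hn.pair hp)

@[fun_prop] theorem pt_idxOf {l : α → List ℕ} {x : α → ℕ} (hl : PTime l) (hx : PTime x) :
    PTime fun a => (l a).idxOf (x a) :=
  PTime.idxOf hl hx

end

theorem ptime_okM : PTime (fun p : LL × List Bool => okM p.1 p.2) := by
  unfold okM
  refine PTime.and (PTime.and ?_ ?_) ?_
  · fun_prop
  · refine PTime.all (l := fun p : LL × List Bool => List.range (menN p.1))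
      (f := fun p a => (List.range (menN p.1)).all fun c =>
        decide (a = c) || decide ((decW (menN p.1) p.2).getD a (menN p.1) = menN p.1) ||
          !decide ((decW (menN p.1) p.2).getD a (menN p.1) =
            (decW (menN p.1) p.2).getD c (menN p.1))) (by fun_prop) ?_
    refine PTime.all (l := fun q : (LL × List Bool) × ℕ => List.range (menN q.1.1))
      (f := fun q c => decide (q.2 = c) ||
        decide ((decW (menN q.1.1) q.1.2).getD q.2 (menN q.1.1) = menN q.1.1) ||
          !decide ((decW (menN q.1.1) q.1.2).getD q.2 (menN q.1.1) =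
            (decW (menN q.1.1) q.1.2).getD c (menN q.1.1))) (by fun_prop) ?_
    fun_prop
  · refine PTime.all (l := fun p : LL × List Bool => List.range (menN p.1))
      (f := fun p a => (List.range (menN p.1)).all fun v =>
    !((decide ((decW (menN p.1) p.2).getD a (menN p.1) = menN p.1) ||
        decide ((p.1.getD a []).idxOf v < (p.1.getD a []).idxOf
          ((decW (menN p.1) p.2).getD a (menN p.1)))) &&
      (List.range (menN p.1)).all fun c =>
        (!decide ((decW (menN p.1) p.2).getD c (menN p.1) = v)) ||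
        decide ((p.1.getD (menN p.1 + v) []).idxOf a < (p.1.getD (menN p.1 + v) []).idxOf c)))
      (by fun_prop) ?_
    refine PTime.all (l := fun q : (LL × List Bool) × ℕ => List.range (menN q.1.1))
      (f := fun q v => !((decide ((decW (menN q.1.1) q.1.2).getD q.2 (menN q.1.1) = menN q.1.1) ||
        decide ((q.1.1.getD q.2 []).idxOf v < (q.1.1.getD q.2 []).idxOf
          ((decW (menN q.1.1) q.1.2).getD q.2 (menN q.1.1)))) &&
      (List.range (menN q.1.1)).all fun c =>
        (!decide ((decW (menN q.1.1) q.1.2).getD c (menN q.1.1) = v)) ||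
        decide ((q.1.1.getD (menN q.1.1 + v) []).idxOf q.2 <
          (q.1.1.getD (menN q.1.1 + v) []).idxOf c))) (by fun_prop) ?_
    refine PTime.not (PTime.and (by fun_prop) ?_)
    refine PTime.all (l := fun r : ((LL × List Bool) × ℕ) × ℕ => List.range (menN r.1.1.1))
      (f := fun r c => (!decide ((decW (menN r.1.1.1) r.1.1.2).getD c (menN r.1.1.1) = r.2)) ||
        decide ((r.1.1.1.getD (menN r.1.1.1 + r.2) []).idxOf r.1.2 <
          (r.1.1.1.getD (menN r.1.1.1 + r.2) []).idxOf c)) (by fun_prop) ?_
    fun_prop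

/-! ### The meaning of the test -/

theorem okM_iff {y : LL} {n : ℕ} (hn : menN y = n) (w : List Bool) : okM y w = true ↔
    encW n (decW n w) = w ∧
    (∀ a < n, ∀ c < n, (a = c ∨ (decW n w).getD a n = n) ∨
      ¬ (decW n w).getD a n = (decW n w).getD c n) ∧
    ∀ a < n, ∀ v < n, ¬ (((decW n w).getD a n = n ∨
        (y.getD a []).idxOf v < (y.getD a []).idxOf ((decW n w).getD a n)) ∧
      ∀ c < n, ¬ (decW n w).getD c n = v ∨
        (y.getD (n + v) []).idxOf a < (y.getD (n + v) []).idxOf c) := by
  subst hn
  unfold okM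
  simp only [Bool.and_eq_true, List.all_eq_true, List.mem_range, decide_eq_true_eq,
    Bool.or_eq_true, Bool.not_eq_true', and_assoc, Bool.eq_false_iff, ne_eq]

/-- The partners, for an arbitrary map. -/
def pl {n : ℕ} (ν : Fin n → Option (Fin n)) : List ℕ :=
  List.ofFn fun a => ((ν a).map Fin.val).getD n

variable {n : ℕ} (ν : Fin n → Option (Fin n))

theorem length_pl : (pl ν).length = n := by
  unfold pl
  simp

theorem getD_pl (a : Fin n) (d : ℕ) : (pl ν).getD a d = ((ν a).map Fin.val).getD n := by
  unfold pl
  rw [List.getD_eq_getElem?_getD, List.getElem?_ofFn]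
  simp

theorem getD_pl_none {a : Fin n} (h : ν a = none) (d : ℕ) : (pl ν).getD a d = n := by
  rw [getD_pl, h]
  rfl

theorem getD_pl_some {a w : Fin n} (h : ν a = some w) (d : ℕ) : (pl ν).getD a d = w := by
  rw [getD_pl, h]
  rfl

theorem getD_pl_le {a : ℕ} (ha : a < n) : (pl ν).getD a n ≤ n := by
  have := getD_pl ν ⟨a, ha⟩ n
  simp only at this
  rw [this]
  cases h : ν ⟨a, ha⟩ with
  | none => simp
  | some w => simp

theorem getD_pl_eq_n {a : Fin n} (h : (pl ν).getD a n = n) : ν a = none := by
  cases h' : ν a with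
  | none => rfl
  | some w =>
    rw [getD_pl_some ν h'] at h
    exact absurd h w.2.ne

theorem getD_pl_eq {a w : Fin n} (h : (pl ν).getD a n = w) : ν a = some w := by
  cases h' : ν a with
  | none =>
    rw [getD_pl_none ν h'] at h
    exact absurd h.symm w.2.ne
  | some w' =>
    rw [getD_pl_some ν h'] at h
    rw [Fin.ext h]

theorem pl_injective {n : ℕ} : Function.Injective (pl (n := n)) := by
  intro ν ν' h
  funext a
  cases h' : ν' a with
  | none =>
    apply getD_pl_eq_n
    rw [h, getD_pl_none _ h']
  | some w =>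
    apply getD_pl_eq
    rw [h, getD_pl_some _ h']

theorem decW_encW_pl : decW n (encW n (pl ν)) = pl ν :=
  decW_encW (length_pl ν) fun _ ha => getD_pl_le ν ha

/-- Every list of the right form describes a map. -/
theorem exists_pl {p : List ℕ} (hp : p.length = n) (h : ∀ a < n, p.getD a n ≤ n) :
    ∃ ν : Fin n → Option (Fin n), pl ν = p := by
  refine ⟨fun a => if h : p.getD a n < n then some ⟨_, h⟩ else none,
    list_ext_getD (length_pl _) hp ?_⟩
  intro a ha
  have h1 := getD_pl (fun a : Fin n => if h : p.getD a n < n then some (⟨_, h⟩ : Fin n) else none)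
    ⟨a, ha⟩ n
  simp only at h1
  rw [h1]
  have h2 := h a ha
  split_ifs with h3
  · rfl
  · simp only [Option.map_none, Option.getD_none]
    omega

theorem okM_encW (J : Marriage) (ν : Fin J.n → Option (Fin J.n)) :
    okM (mlists J) (encW J.n (pl ν)) = true ↔ J.IsStable ν := by
  rw [okM_iff (y := mlists J) J.length_head, decW_encW_pl]
  have hM : ∀ a : Fin J.n, (mlists J).getD a [] = (J.men a).map Fin.val := J.getD_men
  have hW : ∀ w : Fin J.n, (mlists J).getD (J.n + w) [] = (J.women w).map Fin.val := J.getD_women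
  constructor
  · rintro ⟨-, h1, h2⟩
    refine ⟨fun a b w ha hb => ?_, fun a w hh => ?_⟩
    · rcases h1 a.1 a.2 b.1 b.2 with (h | h) | h
      · exact Fin.ext h
      · rw [getD_pl_eq_n ν h] at ha
        exact absurd ha (by simp)
      · rw [getD_pl_some ν ha, getD_pl_some ν hb] at h
        exact absurd rfl h
    · refine h2 a.1 a.2 w.1 w.2 ⟨?_, ?_⟩
      · cases h : ν a with
        | none => exact Or.inl (getD_pl_none ν h _)
        | some w' =>
          right
          rw [getD_pl_some ν h, hM, idxOf_map_val, idxOf_map_val]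
          exact hh.1 w' h
      · intro c hc
        by_cases h : ν ⟨c, hc⟩ = some w
        · right
          have h3 := hh.2 ⟨c, hc⟩ h
          rw [hW]
          have h4 := idxOf_map_val (J.women w) a
          have h5 := idxOf_map_val (J.women w) ⟨c, hc⟩
          rw [h4]
          simp only at h5
          rw [h5]
          exact h3
        · left
          intro h'
          exact h (getD_pl_eq ν (a := ⟨c, hc⟩) h')
  · rintro ⟨h1, h2⟩
    refine ⟨rfl, fun a ha c hc => ?_, fun a ha v hv hh => ?_⟩
    · by_cases h : (pl ν).getD a J.n = (pl ν).getD c J.n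
      · left
        by_cases h' : (pl ν).getD a J.n = J.n
        · exact Or.inr h'
        · left
          have h3 : (pl ν).getD a J.n < J.n := lt_of_le_of_ne (getD_pl_le ν ha) h'
          have h4 := getD_pl_eq ν (a := ⟨a, ha⟩) (w := ⟨_, h3⟩) rfl
          have h5 := getD_pl_eq ν (a := ⟨c, hc⟩) (w := ⟨_, h3⟩) h.symm
          exact congrArg Fin.val (h1 _ _ _ h4 h5)
      · exact Or.inr h
    · refine h2 ⟨a, ha⟩ ⟨v, hv⟩ ⟨fun w' hw' => ?_, fun a' ha' => ?_⟩
      · rcases hh.1 with h | h
        · rw [getD_pl_eq_n ν (a := ⟨a, ha⟩) h] at hw'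
          exact absurd hw' (by simp)
        · have h3 := getD_pl_some ν hw' J.n
          simp only at h3
          have h4 := hM ⟨a, ha⟩
          simp only at h4
          rw [h3, h4] at h
          have h5 := idxOf_map_val (J.men ⟨a, ha⟩) ⟨v, hv⟩
          have h6 := idxOf_map_val (J.men ⟨a, ha⟩) w'
          simp only at h5
          rwa [h5, h6] at h
      · rcases hh.2 a'.1 a'.2 with h | h
        · exact absurd (getD_pl_some ν ha' J.n) h
        · have h4 := hW ⟨v, hv⟩
          simp only at h4
          rw [h4] at h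
          have h5 := idxOf_map_val (J.women ⟨v, hv⟩) ⟨a, ha⟩
          have h6 := idxOf_map_val (J.women ⟨v, hv⟩) a'
          simp only at h5
          rwa [h5, h6] at h

end MarrAux

open MarrAux

theorem marrW : StMarrW := by
  refine ⟨ptime_okM, fun J => ?_⟩
  have hn : menN (mlists J) = J.n := J.length_head
  rw [hn]
  have hpl : ∀ ν : J.Stable, plM ν = pl ν.1 := fun _ => rfl
  let F : J.Stable → {w : List Bool // w.length = J.n * J.n ∧ okM (mlists J) w = true} :=
    fun ν => ⟨encW J.n (pl ν.1), length_encW _ _, (okM_encW J ν.1).2 ν.2⟩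
  have hF : Function.Bijective F := by
    constructor
    · intro ν ν' h
      have h1 : encW J.n (pl ν.1) = encW J.n (pl ν'.1) := congrArg Subtype.val h
      have h2 := congrArg (decW J.n) h1
      rw [decW_encW_pl, decW_encW_pl] at h2
      exact Subtype.ext (pl_injective h2)
    · rintro ⟨w, hw1, hw2⟩
      have h1 := ((okM_iff hn w).1 hw2).1
      obtain ⟨ν, hν⟩ := exists_pl (p := decW J.n w) (length_decW _ _)
        fun a ha => getD_decW_le _ _ ha _
      rw [← hν] at h1
      have h2 : J.IsStable ν := (okM_encW J ν).1 (by rw [h1]; exact hw2)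
      exact ⟨⟨ν, h2⟩, Subtype.ext h1⟩
  refine ⟨Equiv.ofBijective F hF, fun ν => ⟨rfl, ?_⟩⟩
  exact decW_encW_pl ν.1

end Pool.Agent.Lib.MP_186ff7_lc.Cnt
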