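import Pool.Agent.Lib.MP_186ff7_lc.Cnt.EncW

/-!
# The stable matchings of a roommates instance as binary words
-/

namespace Pool.Agent.Lib.MP_186ff7_lc.Cnt

open Turing Pool.Agent.Lib.PT

theorem wPT : StWPT := ⟨ptime_encW, ptime_decW⟩

namespace RoomW

theorem all_range {n : ℕ} {P : ℕ → Bool} :
    (List.range n).all P = true ↔ ∀ a < n, P a = true := by
  rw [List.all_eq_true]
  simp only [List.mem_range]

theorem length_rlists (I : Roommates) : (rlists I).length = I.n := by simp [rlists]

theorem length_plR {I : Roommates} (μ : I.Stable) : (plR μ).length = I.n := by simp [plR]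

theorem getD_rlists (I : Roommates) (a : Fin I.n) :
    (rlists I).getD a [] = (I.list a).map Fin.val := by
  unfold rlists
  rw [List.getD_eq_getElem?_getD, List.getElem?_ofFn]
  simp

theorem getD_plR {I : Roommates} (μ : I.Stable) (a : Fin I.n) (d : ℕ) :
    (plR μ).getD a d = (μ.1 a).val := by
  unfold plR
  rw [List.getD_eq_getElem?_getD, List.getElem?_ofFn]
  simp

theorem decW_enc {I : Roommates} (μ : I.Stable) : decW I.n (encW I.n (plR μ)) = plR μ := by
  refine decW_encW (length_plR μ) fun a ha => ?_
  have := getD_plR μ ⟨a, ha⟩ I.n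
  rw [this]
  exact (μ.1 ⟨a, ha⟩).2.le

theorem okR_iff (I : Roommates) (w : List Bool) : okR (rlists I) w = true ↔
    encW I.n (decW I.n w) = w ∧
    (∀ a < I.n, (decW I.n w).getD a I.n < I.n ∧
      (decW I.n w).getD ((decW I.n w).getD a I.n) I.n = a) ∧
    ∀ a < I.n, ∀ b < I.n,
      ¬ (((rlists I).getD a []).idxOf b < ((rlists I).getD a []).idxOf ((decW I.n w).getD a I.n) ∧
        ((rlists I).getD b []).idxOf a <
          ((rlists I).getD b []).idxOf ((decW I.n w).getD b I.n)) := by
  unfold okR
  rw [length_rlists, Bool.and_eq_true, Bool.and_eq_true, decide_eq_true_eq, all_range, all_range,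
    and_assoc]
  simp only [all_range, Bool.and_eq_true, decide_eq_true_eq, Bool.not_eq_true',
    Bool.and_eq_false_iff, decide_eq_false_iff_not, not_and_or]

theorem okR_enc {I : Roommates} (μ : I.Stable) :
    okR (rlists I) (encW I.n (plR μ)) = true := by
  rw [okR_iff, decW_enc]
  refine ⟨rfl, fun a ha => ?_, fun a ha b hb => ?_⟩
  · have h1 := getD_plR μ ⟨a, ha⟩ I.n
    simp only at h1
    rw [h1]
    refine ⟨(μ.1 ⟨a, ha⟩).2, ?_⟩
    rw [getD_plR μ (μ.1 ⟨a, ha⟩), μ.2.invol]
  · have h1 := getD_plR μ ⟨a, ha⟩ I.n
    have h2 := getD_plR μ ⟨b, hb⟩ I.n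
    have h3 := getD_rlists I ⟨a, ha⟩
    have h4 := getD_rlists I ⟨b, hb⟩
    simp only at h1 h2 h3 h4
    rw [h1, h2, h3, h4]
    have e1 := idxOf_map_val (I.list ⟨a, ha⟩) ⟨b, hb⟩
    have e2 := idxOf_map_val (I.list ⟨b, hb⟩) ⟨a, ha⟩
    simp only at e1 e2
    rw [idxOf_map_val, idxOf_map_val, e1, e2]
    exact μ.2.noBlock ⟨a, ha⟩ ⟨b, hb⟩

/-- The matching of a word. -/
def toStable (I : Roommates) (w : List Bool) (hw : okR (rlists I) w = true) : I.Stable :=
  ⟨fun a => ⟨(decW I.n w).getD a I.n, ((okR_iff I w).1 hw).2.1 a a.2 |>.1⟩, by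
    have h := (okR_iff I w).1 hw
    constructor
    · intro a
      apply Fin.ext
      exact (h.2.1 a a.2).2
    · intro a b
      have h3 := h.2.2 a a.2 b b.2
      rw [getD_rlists, getD_rlists, idxOf_map_val, idxOf_map_val] at h3
      unfold Roommates.Prefers
      have e1 := idxOf_map_val (I.list a) ⟨(decW I.n w).getD a I.n, (h.2.1 a a.2).1⟩
      have e2 := idxOf_map_val (I.list b) ⟨(decW I.n w).getD b I.n, (h.2.1 b b.2).1⟩
      rw [← e1, ← e2]
      exact h3⟩

theorem plR_toStable (I : Roommates) (w : List Bool) (hw : okR (rlists I) w = true) :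
    plR (toStable I w hw) = decW I.n w := by
  refine list_ext_getD (length_plR _) (length_decW _ _) fun a ha => ?_
  exact getD_plR (toStable I w hw) ⟨a, ha⟩ I.n

end RoomW

open RoomW in
theorem roomW : StRoomW := by
  constructor
  · have hx : PTime fun p : LL × List Bool => p.1.length := by fun_prop
    have hd : PTime fun p : LL × List Bool => decW p.1.length p.2 :=
      ptime_decW.comp (hx.pair PTime.snd)
    have he : PTime fun p : LL × List Bool => encW p.1.length (decW p.1.length p.2) :=
      ptime_encW.comp (hx.pair hd)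
    have hr : PTime fun p : LL × List Bool => List.range p.1.length := by fun_prop
    -- the entries
    have g1 : PTime fun q : (LL × List Bool) × ℕ =>
        (decW q.1.1.length q.1.2).getD q.2 q.1.1.length := by
      have h1 : PTime fun q : (LL × List Bool) × ℕ => decW q.1.1.length q.1.2 :=
        hd.comp PTime.fst
      fun_prop
    unfold okR
    refine PTime.and (PTime.and (he.eq PTime.snd) ?_) ?_
    · refine PTime.all (l := fun p : LL × List Bool => List.range p.1.length)
        (f := fun p a => decide ((decW p.1.length p.2).getD a p.1.length < p.1.length) &&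
          decide ((decW p.1.length p.2).getD ((decW p.1.length p.2).getD a p.1.length)
            p.1.length = a)) hr ?_
      have g2 : PTime fun q : (LL × List Bool) × ℕ => (decW q.1.1.length q.1.2).getD
          ((decW q.1.1.length q.1.2).getD q.2 q.1.1.length) q.1.1.length :=
        g1.comp (g := fun q : (LL × List Bool) × ℕ => (q.1,
          (decW q.1.1.length q.1.2).getD q.2 q.1.1.length)) (PTime.fst.pair g1)
      fun_prop
    · refine PTime.all (l := fun p : LL × List Bool => List.range p.1.length)
        (f := fun p a => (List.range p.1.length).all fun b =>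
          !(decide ((p.1.getD a []).idxOf b <
              (p.1.getD a []).idxOf ((decW p.1.length p.2).getD a p.1.length)) &&
            decide ((p.1.getD b []).idxOf a <
              (p.1.getD b []).idxOf ((decW p.1.length p.2).getD b p.1.length)))) hr ?_
      refine PTime.all (l := fun q : (LL × List Bool) × ℕ => List.range q.1.1.length)
        (f := fun q b =>
          !(decide ((q.1.1.getD q.2 []).idxOf b <
              (q.1.1.getD q.2 []).idxOf ((decW q.1.1.length q.1.2).getD q.2 q.1.1.length)) &&
            decide ((q.1.1.getD b []).idxOf q.2 <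
              (q.1.1.getD b []).idxOf ((decW q.1.1.length q.1.2).getD b q.1.1.length))))
        (hr.comp PTime.fst) ?_
      have g3 : PTime fun r : ((LL × List Bool) × ℕ) × ℕ =>
          (decW r.1.1.1.length r.1.1.2).getD r.1.2 r.1.1.1.length := g1.comp PTime.fst
      have g4 : PTime fun r : ((LL × List Bool) × ℕ) × ℕ =>
          (decW r.1.1.1.length r.1.1.2).getD r.2 r.1.1.1.length :=
        g1.comp (g := fun r : ((LL × List Bool) × ℕ) × ℕ => (r.1.1, r.2)) (by fun_prop)
      have l1 : PTime fun r : ((LL × List Bool) × ℕ) × ℕ => r.1.1.1.getD r.1.2 [] := by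
        fun_prop
      have l2 : PTime fun r : ((LL × List Bool) × ℕ) × ℕ => r.1.1.1.getD r.2 [] := by
        fun_prop
      have i1 := PTime.idxOf l1 (x := fun r : ((LL × List Bool) × ℕ) × ℕ => r.2) (by fun_prop)
      have i2 := PTime.idxOf l1 g3
      have i3 := PTime.idxOf l2 (x := fun r : ((LL × List Bool) × ℕ) × ℕ => r.1.2) (by fun_prop)
      have i4 := PTime.idxOf l2 g4
      exact ((i1.lt i2).and (i3.lt i4)).not
  · intro I
    rw [length_rlists]
    refine ⟨{ toFun := fun μ => ⟨encW I.n (plR μ), length_encW _ _, okR_enc μ⟩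
              invFun := fun w => toStable I w.1 w.2.2
              left_inv := ?_
              right_inv := ?_ }, fun μ => ⟨rfl, decW_enc μ⟩⟩
    · intro μ
      apply Subtype.ext
      funext a
      apply Fin.ext
      change (decW I.n (encW I.n (plR μ))).getD a I.n = _
      rw [decW_enc, getD_plR]
    · intro w
      apply Subtype.ext
      change encW I.n (plR (toStable I w.1 w.2.2)) = w.1
      rw [plR_toStable]
      exact ((okR_iff I w.1).1 w.2.2).1

end Pool.Agent.Lib.MP_186ff7_lc.Cnt
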