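import Pool.Agent.Lib.MP_186ff7_lc.Cnt.Stmts
import Pool.Agent.Lib.CookLevin.SM

/-!
# Turing machines are simulated by programs
-/

open Turing Turing.TM2 Function

namespace Pool.Agent.Lib.MP_186ff7_lc.Cnt

open Pool.Agent.Lib.PT Pool.Agent.Lib.CookLevin

/-- An encoding of a finite type. -/
noncomputable def finEnc (α : Type) [Finite α] : Enc α :=
  ⟨fun a => tr ((Finite.equivFin α a : Fin _) : ℕ)⟩

theorem finEncInj (α : Type) [Finite α] : @EncInj α (finEnc α) :=
  @EncInj.mk α (finEnc α) fun a b h => by
    have h1 : tr ((Finite.equivFin α a : Fin _) : ℕ) = tr ((Finite.equivFin α b : Fin _) : ℕ) := h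
    have h2 : ((Finite.equivFin α a : Fin _) : ℕ) = ((Finite.equivFin α b : Fin _) : ℕ) :=
      EncInj.inj h1
    exact (Finite.equivFin α).injective (Fin.ext h2)

section SM

variable (M : SM)

noncomputable local instance : Fintype M.K := Fintype.ofFinite _
noncomputable local instance : Enc M.Q := finEnc _
local instance : EncInj M.Q := finEncInj _
noncomputable local instance : Enc M.G := finEnc _
local instance : EncInj M.G := finEncInj _

theorem ptime_step : PTime M.step := by
  have h1 : PTime fun c : M.Q × (M.K → List M.G) => (c.1, fun k => (c.2 k).head?) := by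
    refine PTime.pair PTime.fst (PTime.pi fun k => ?_)
    exact PTime.headOpt (PTime.app PTime.snd k)
  refine PTime.finCases (g := fun c : M.Q × (M.K → List M.G) =>
      (c.1, fun k => (c.2 k).head?))
    (h := fun c (b : M.Q × (M.K → Option M.G)) =>
      ((M.δ b.1 b.2, fun k => (M.act b.1 b.2 k).run (c.2 k)) : M.Q × (M.K → List M.G))) h1
    fun b => ?_
  refine PTime.pair (PTime.const _) (PTime.pi fun k => ?_)
  have h2 : PTime fun c : M.Q × (M.K → List M.G) => c.2 k := PTime.app PTime.snd k
  cases M.act b.1 b.2 k with
  | keep => exact h2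
  | pop => exact PTime.tail h2
  | push g => exact PTime.cons (PTime.const g) h2

open Classical in
theorem ptime_init : PTime fun w : List M.G =>
    ((M.q₀, fun k => if k = M.k₀ then w else []) : M.Q × (M.K → List M.G)) := by
  refine PTime.pair (PTime.const _) (PTime.pi fun k => ?_)
  by_cases h : k = M.k₀
  · simp only [h, if_true]
    exact PTime.id
  · simp only [h, if_false]
    exact PTime.const _

theorem conf_eq (w : List M.G) (n : ℕ) : M.conf w n = M.step^[n] (M.conf w 0) := by
  induction n with
  | zero => rfl
  | succ n ih => rw [iterate_succ_apply', ← ih]; rfl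

theorem length_conf (w : List M.G) (n : ℕ) (k : M.K) :
    ((M.conf w n).2 k).length ≤ w.length + n := by
  induction n with
  | zero =>
    have : (M.conf w 0).2 k = [] ∨ (M.conf w 0).2 k = w := by
      by_cases h : k = M.k₀
      · exact Or.inr (if_pos h)
      · exact Or.inl (if_neg h)
    rcases this with h | h <;> rw [h] <;> simp
  | succ n ih =>
    have : (M.conf w (n + 1)).2 k = (M.act (M.conf w n).1 (fun k => ((M.conf w n).2 k).head?) k).run
      ((M.conf w n).2 k) := rfl
    rw [this]
    cases M.act (M.conf w n).1 (fun k => ((M.conf w n).2 k).head?) k with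
    | keep => exact ih.trans (by omega)
    | pop =>
      show ((M.conf w n).2 k).tail.length ≤ _
      rw [List.length_tail]
      omega
    | push g =>
      show (g :: (M.conf w n).2 k).length ≤ _
      rw [List.length_cons]
      omega

/-- The configurations are computable in polynomial time. -/
theorem ptime_conf {n : List M.G → ℕ} (hn : PTime n) : PTime fun w => M.conf w (n w) := by
  obtain ⟨A, hA⟩ := exists_sz_le M.Q
  obtain ⟨B, hB⟩ := exists_sz_le M.G
  have h0 : PTime fun w : List M.G => M.conf w 0 := ptime_init M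
  refine (PTime.iterate (n := n) (s := fun w => M.conf w 0) (f := fun _ c => M.step c) hn h0
    ((ptime_step M).comp PTime.snd)
    (B := fun w => A + ((elts M.K).length * (((sz w + sz (n w)) * (B + 1) + 1) + 1) + 1) + 1)
    ?_ ?_).of_eq fun w => (conf_eq M w (n w)).symm
  · exact ((PB.const A).add (((PB.const _).mul ((((PB.sz.add hn.sz_le).mul (PB.const _)).add
      (PB.const 1)).add (PB.const 1))).add (PB.const 1))).add (PB.const 1)
  · intro w i hi
    have e : (fun c => M.step c)^[i] (M.conf w 0) = M.conf w i := (conf_eq M w i).symm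
    rw [e]
    have h1 : sz (M.conf w i) = sz (M.conf w i).1 + sz (M.conf w i).2 + 1 := rfl
    have h2 : sz (M.conf w i).2 = sz ((elts M.K).map (M.conf w i).2) := rfl
    have h3 : sz ((elts M.K).map (M.conf w i).2) ≤ ((elts M.K).map (M.conf w i).2).length *
        (((sz w + sz (n w)) * (B + 1) + 1) + 1) + 1 := by
      refine sz_le_of_forall fun l hl => ?_
      rw [List.mem_map] at hl
      obtain ⟨k, -, rfl⟩ := hl
      refine (sz_le_of_forall (B := B) fun x _ => hB x).trans ?_
      have h4 := length_conf M w i k
      have h5 := length_le_sz w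
      have h6 : ((M.conf w i).2 k).length ≤ sz w + sz (n w) := by
        rw [sz_nat]
        omega
      exact Nat.add_le_add_right (Nat.mul_le_mul_right _ h6) 1
    rw [List.length_map] at h3
    have h7 := hA (M.conf w i).1
    omega

end SM

/-- Polynomials in unary numbers. -/
theorem ptime_eval {α : Type} [Enc α] (P : Polynomial ℕ) {n : α → ℕ} (hn : PTime n) :
    PTime fun a => P.eval (n a) := by
  induction P using Polynomial.induction_on with
  | C c => simpa using PTime.const c
  | add p q hp hq => simpa using PTime.add hp hq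
  | monomial k c ih =>
    have : PTime fun a => (Polynomial.C c * Polynomial.X ^ k).eval (n a) * n a := PTime.mul ih hn
    refine this.of_eq fun a => ?_
    simp only [Polynomial.eval_mul, Polynomial.eval_C, Polynomial.eval_pow, Polynomial.eval_X]
    ring

/-- The output stack of a Turing machine. -/
theorem output_stack (tm : FinTM2) (b : ℕ) (hb : ∀ l, height (tm.m l) ≤ b)
    (l : List (tm.Γ tm.k₀)) (l' : List (tm.Γ tm.k₁)) (n : ℕ)
    (h : TM2OutputsInTime tm l (some l') n) (T : ℕ) (hT : b * n ≤ T) :
    ((mstep tm.m)^[T] (tm.m tm.main, tm.initialState,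
      fun k => if h : k = tm.k₀ then h ▸ l else [])).2.2 tm.k₁ = l' := by
  have h1 := h.evals_in_steps
  obtain ⟨n', h2, h3⟩ := mstep_iterate tm.m b hb h.steps (initList tm l) (haltList tm l') h1
  have h4 : toMC tm.m (initList tm l) = (tm.m tm.main, tm.initialState,
      fun k => if h : k = tm.k₀ then h ▸ l else []) := by
    simp only [toMC, initList, Prod.mk.injEq, true_and]
    funext k
    by_cases hk : k = tm.k₀
    · subst hk
      simp
    · simp [hk]
  have h5 : n' ≤ T := h2.trans ((Nat.mul_le_mul_left b h.steps_le_m).trans hT)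
  obtain ⟨d, rfl⟩ := Nat.exists_eq_add_of_le h5
  rw [Nat.add_comm, Function.iterate_add_apply, ← h4, h3]
  simp only [toMC, haltList]
  rw [mstep_halt]
  simp

/-- **Turing machines are simulated by programs.** -/
theorem sim : StSim := by
  intro G₁ G₂ _ _ _ _ α β ea eb f hf
  obtain ⟨N⟩ := hf
  have : Finite (N.tm.Γ N.tm.k₀) := @Finite.of_fintype _ N.tm.Γk₀Fin
  have : Finite N.tm.K := @Finite.of_fintype _ N.tm.kFin
  have : Finite N.tm.Λ := @Finite.of_fintype _ N.tm.ΛFin
  have : Finite N.tm.σ := @Finite.of_fintype _ N.tm.σFin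
  rcases isEmpty_or_nonempty (Σ k, N.tm.Γ k) with hE | ⟨⟨x₁⟩⟩
  · refine ⟨fun _ => [], PTime.const _, fun a => ?_⟩
    cases hl : eb (f a) with
    | nil => rfl
    | cons y l => exact (hE.false ⟨N.tm.k₁, N.outputAlphabet.invFun y⟩).elim
  obtain ⟨b, hb⟩ : ∃ b, ∀ l, height (N.tm.m l) ≤ b := by
    obtain ⟨b, hb⟩ := (Set.finite_range fun l => height (N.tm.m l)).bddAbove
    exact ⟨b, fun l => hb ⟨l, rfl⟩⟩
  let M : SM := smOf N.tm.m N.tm.main N.tm.initialState N.tm.k₀ x₁
  letI : Enc M.G := finEnc _
  haveI : EncInj M.G := finEncInj _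
  letI : Fintype M.K := Fintype.ofFinite _
  letI : Enc M.Q := finEnc _
  haveI : EncInj M.Q := finEncInj _
  let ch : G₁ → M.G := fun g => (⟨⟨N.tm.k₀, N.inputAlphabet.invFun g⟩, Or.inl ⟨_, rfl⟩⟩ :
    syset N.tm.m N.tm.k₀ x₁)
  let dec : M.G → List G₂ := fun g =>
    if h : g.1.1 = N.tm.k₁ then [N.outputAlphabet (h ▸ g.1.2)] else []
  let F : List G₁ → List G₂ := fun w =>
    ((M.conf (w.map ch) (b * N.time.eval (w.map ch).length)).2 N.tm.k₁).flatMap dec
  refine ⟨F, ?_, fun a => ?_⟩
  · have h1 : PTime fun w : List G₁ => w.map ch :=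
      PTime.map (l := fun w : List G₁ => w) (f := fun _ g => ch g) PTime.id
        ((PTime.finite ch).comp PTime.snd)
    have h2 : PTime fun w : List M.G => M.conf w (b * N.time.eval w.length) :=
      ptime_conf M (PTime.mul (PTime.const b) (ptime_eval N.time (PTime.length PTime.id)))
    have h3 : PTime fun w : List G₁ =>
        (M.conf (w.map ch) (b * N.time.eval (w.map ch).length)).2 N.tm.k₁ :=
      PTime.app (PTime.snd.comp (h2.comp h1)) _
    exact PTime.flatMap (f := fun _ g => dec g) h3 ((PTime.finite dec).comp PTime.snd)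
  · have e0 : ∀ l : List G₁, l.map ch = inOf N.tm.m N.tm.main N.tm.initialState N.tm.k₀ x₁
        (l.map N.inputAlphabet.invFun) := by
      intro l
      induction l with
      | nil => rfl
      | cons c l ih => exact congrArg (List.cons (ch c)) ih
    have h7 : TM2OutputsInTime N.tm ((ea a).map N.inputAlphabet.invFun)
        (some ((eb (f a)).map N.outputAlphabet.invFun)) (N.time.eval (ea a).length) :=
      N.outputsFun a
    have h8 := output_stack N.tm b hb _ _ _ h7 (b * N.time.eval (ea a).length) le_rfl
    have h9 := (rel_conf N.tm.m N.tm.main N.tm.initialState N.tm.k₀ x₁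
      ((ea a).map N.inputAlphabet.invFun) (b * N.time.eval (ea a).length)).2.2 N.tm.k₁
    rw [h8] at h9
    have h10 : ∀ (S' : List M.G) (l : List G₂),
        S'.map Subtype.val = (l.map N.outputAlphabet.invFun).map (Sigma.mk N.tm.k₁) →
        S'.flatMap dec = l := by
      intro S'
      induction S' with
      | nil =>
        intro l h
        cases l with
        | nil => rfl
        | cons y l => exact (List.cons_ne_nil _ _ h.symm).elim
      | cons g S' ih =>
        intro l h
        cases l with
        | nil => exact (List.cons_ne_nil _ _ h).elim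
        | cons y l =>
          obtain ⟨hg, hl⟩ := List.cons.inj h
          rw [List.flatMap_cons, ih l hl]
          have : dec g = [y] := by
            obtain ⟨⟨k, c⟩, hc⟩ := g
            obtain ⟨h1, hc'⟩ := Sigma.mk.inj_iff.1 hg
            obtain rfl : k = N.tm.k₁ := h1
            obtain rfl := eq_of_heq hc'
            show (if h : N.tm.k₁ = N.tm.k₁ then _ else _) = _
            rw [dif_pos rfl]
            exact congrArg (fun z => [z]) (N.outputAlphabet.apply_symm_apply y)
          rw [this]
          rfl
    show ((M.conf ((ea a).map ch) (b * N.time.eval ((ea a).map ch).length)).2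
      N.tm.k₁).flatMap dec = eb (f a)
    rw [List.length_map, e0]
    exact h10 _ _ h9

end Pool.Agent.Lib.MP_186ff7_lc.Cnt
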