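import Pool.Agent.Lib.MP_186ff7_lc.Cnt.Defs
import Pool.Agent.Lib.MP_186ff7_lc.Marr
import Pool.Agent.Lib.MP_186ff7_lc.Prog
import Pool.Agent.Lib.PTime.Fin

/-!
# FP = #P implies that a reduction exists: the statements of the modules
-/

namespace Pool.Agent.Lib.MP_186ff7_lc.Cnt

open Turing Pool.Agent.Lib.PT

/-- Functions that are computed by Turing machines are computed by programs. -/
def StSim : Prop := ∀ (G₁ G₂ : Type) [Fintype G₁] [Enc G₁] [EncInj G₁] [Enc G₂] (α β : Type)
  (ea : α → List G₁) (eb : β → List G₂) (f : α → β), Nonempty (TM2ComputableInPolyTime ea eb f) →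
  ∃ F : List G₁ → List G₂, PTime F ∧ ∀ a, F (ea a) = eb (f a)

/-- Counting in polynomial time. -/
def CountOK : Prop := ∀ (L : LL → ℕ) (V : LL → List Bool → Bool), PTime L →
  PTime (fun p : LL × List Bool => V p.1 p.2) → PTime fun x => (cntOf (L x) (V x)).bits

/-- If FP = #P, then one can count in polynomial time. -/
def StCnt : Prop := FPeqSharpP → CountOK

/-- Comparison of binary numbers. -/
def StBin : Prop := ∀ (α : Type) [Enc α] (a b : α → ℕ), PTime (fun x => (a x).bits) →
  PTime (fun x => (b x).bits) → PTime fun x => decide (a x ≤ b x)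

/-- The word `w` with the same rank: bijections in polynomial time. -/
def StTrans : Prop := CountOK → ∀ (L₁ L₂ : LL → ℕ) (V₁ V₂ : LL → List Bool → Bool),
  PTime L₁ → PTime L₂ → PTime (fun p : LL × List Bool => V₁ p.1 p.2) →
  PTime (fun p : LL × List Bool => V₂ p.1 p.2) →
  ∃ T T' : LL → List Bool → List Bool,
    PTime (fun p : LL × List Bool => T p.1 p.2) ∧ PTime (fun p : LL × List Bool => T' p.1 p.2) ∧
    ∀ x, cntOf (L₁ x) (V₁ x) = cntOf (L₂ x) (V₂ x) →
      (∀ w, w.length = L₁ x → V₁ x w = true →
        (T x w).length = L₂ x ∧ V₂ x (T x w) = true ∧ T' x (T x w) = w) ∧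
      ∀ w, w.length = L₂ x → V₂ x w = true →
        (T' x w).length = L₁ x ∧ V₁ x (T' x w) = true ∧ T x (T' x w) = w

/-- The stable matchings of the abstract marriage instance are the closed sets. The men and the
women are pairs `(z, c)`; `rM` and `rW` are the positions in their lists. -/
def StDagAbs : Prop := ∀ (k : ℕ) (E : Fin k → Fin k → Prop)
  (rM rW : Fin k × Bool → Fin k × Bool → ℕ), (∀ z x, E z x → x < z) →
  (∀ z y, y ≠ (z, false) → rM (z, false) (z, false) < rM (z, false) y) →
  (∀ z x, E z x → rM (z, false) (x, false) < rM (z, false) (z, true)) →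
  (∀ z y, y ≠ (z, false) → y ≠ (z, true) → (∀ x, E z x → y ≠ (x, false)) →
    rM (z, false) (z, true) < rM (z, false) y) →
  (∀ z y, y ≠ (z, true) → rM (z, true) (z, true) < rM (z, true) y) →
  (∀ z y, y ≠ (z, true) → y ≠ (z, false) → rM (z, true) (z, false) < rM (z, true) y) →
  (∀ z y, y ≠ (z, true) → rW (z, false) (z, true) < rW (z, false) y) →
  (∀ z u, E u z → rW (z, false) (u, false) < rW (z, false) (z, false)) →
  (∀ z y, y ≠ (z, true) → y ≠ (z, false) → (∀ u, E u z → y ≠ (u, false)) →
    rW (z, false) (z, false) < rW (z, false) y) →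
  (∀ z y, y ≠ (z, false) → rW (z, true) (z, false) < rW (z, true) y) →
  (∀ z y, y ≠ (z, false) → y ≠ (z, true) → rW (z, true) (z, true) < rW (z, true) y) →
  Nat.card {σ : Equiv.Perm (Fin k × Bool) //
      ∀ a w, ¬ (rM a w < rM a (σ a) ∧ rW w a < rW w (σ.symm w))} =
    Nat.card {s : Fin k → Bool // ∀ z x, E z x → s z = true → s x = true}

/-- The marriage instance of a word `b`. -/
def StDag : Prop := ∀ b : List Bool, ∃ J : Marriage, mlists J = marL b ∧ J.n = 2 * b.length ∧
  Nat.card J.Stable = Nat.card (Closed b)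

/-- The number of closed sets is arbitrary. -/
def StCater : Prop := ∀ N : ℕ, 1 ≤ N → Nat.card (Closed (code N.bits)) = N

/-- The lists are computable in polynomial time. -/
def StMarPT : Prop := PTime marL ∧ PTime code

/-- The matchings of a roommates instance as words. -/
def StRoomW : Prop := PTime (fun p : LL × List Bool => okR p.1 p.2) ∧ ∀ I : Roommates,
  ∃ e : I.Stable ≃ {w : List Bool // w.length = (rlists I).length * (rlists I).length ∧
    okR (rlists I) w = true}, ∀ μ : I.Stable,
    ((e μ).1 : List Bool) = encW (rlists I).length (plR μ) ∧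
      decW (rlists I).length (e μ).1 = plR μ

/-- The matchings of a marriage instance as words. -/
def StMarrW : Prop := PTime (fun p : LL × List Bool => okM p.1 p.2) ∧ ∀ J : Marriage,
  ∃ e : J.Stable ≃ {w : List Bool // w.length = menN (mlists J) * menN (mlists J) ∧
    okM (mlists J) w = true}, ∀ ν : J.Stable,
    ((e ν).1 : List Bool) = encW (menN (mlists J)) (plM ν) ∧
      decW (menN (mlists J)) (e ν).1 = plM ν

/-- The words of matchings are computable in polynomial time. -/
def StWPT : Prop := PTime (fun p : ℕ × List ℕ => encW p.1 p.2) ∧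
  PTime (fun p : ℕ × List Bool => decW p.1 p.2)

/-- The converse. -/
def StConverse : Prop := FPeqSharpP → Nonempty Reduction

end Pool.Agent.Lib.MP_186ff7_lc.Cnt
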