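import Pool.Agent.Lib.MP_186ff7_lc.Cnt.Bin

/-!
# The word with the same rank: bijections in polynomial time
-/

namespace Pool.Agent.Lib.MP_186ff7_lc.Cnt

open Turing Pool.Agent.Lib.PT

namespace TransAux

/-! ### Values of words -/

lemma bval_lt (l : List Bool) : bval l < 2 ^ l.length := by
  induction l with
  | nil => simp [bval]
  | cons c l ih =>
    rw [bval, List.length_cons, pow_succ]
    have := Bool.toNat_le c
    omega

lemma bval_append (l l' : List Bool) : bval (l ++ l') = bval l + 2 ^ l.length * bval l' := by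
  induction l with
  | nil => simp [bval]
  | cons c l ih =>
    rw [List.cons_append, bval, bval, ih, List.length_cons, pow_succ]
    ring

lemma bval_replicate (n : ℕ) : bval (List.replicate n false) = 0 := by
  induction n with
  | zero => rfl
  | succ n ih => rw [List.replicate_succ, bval, ih]; rfl

lemma bval_inj : ∀ (l l' : List Bool), l.length = l'.length → bval l = bval l' → l = l' := by
  intro l
  induction l with
  | nil =>
    intro l' h _
    exact (List.length_eq_zero_iff.mp h.symm).symm
  | cons c l ih =>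
    intro l' h hv
    cases l' with
    | nil => simp at h
    | cons c' l' =>
      rw [bval, bval] at hv
      have h1 := Bool.toNat_le c
      have h2 := Bool.toNat_le c'
      have h3 : c.toNat = c'.toNat := by omega
      have h4 : bval l = bval l' := by omega
      have h5 : c = c' := by
        cases c <;> cases c' <;> simp_all
      rw [ih l' (by simpa using h) h4, h5]

/-! ### Ranks -/

/-- the words -/
def AA (L : ℕ) (V : List Bool → Bool) : Set (List Bool) := {w | w.length = L ∧ V w = true}

lemma AA_fin (L : ℕ) (V : List Bool → Bool) : (AA L V).Finite :=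
  (List.finite_length_eq Bool L).subset fun _ h => h.1

lemma cntOf_eq (L : ℕ) (V : List Bool → Bool) : cntOf L V = (AA L V).ncard := rfl

/-- the rank -/
noncomputable def rk (L : ℕ) (V : List Bool → Bool) (w : List Bool) : ℕ :=
  cntOf L fun v => V v && decide (bval v < bval w)

lemma rk_mono (L : ℕ) (V : List Bool → Bool) {v w : List Bool} (h : bval v ≤ bval w) :
    rk L V v ≤ rk L V w := by
  unfold rk
  rw [cntOf_eq, cntOf_eq]
  apply Set.ncard_le_ncard _ (AA_fin _ _)
  rintro u ⟨h1, h2⟩
  simp only [Bool.and_eq_true, decide_eq_true_eq] at h2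
  refine ⟨h1, ?_⟩
  simp only [Bool.and_eq_true, decide_eq_true_eq]
  exact ⟨h2.1, h2.2.trans_le h⟩

lemma rk_lt (L : ℕ) (V : List Bool → Bool) {v w : List Bool} (hv : v ∈ AA L V)
    (h : bval v < bval w) : rk L V v < rk L V w := by
  unfold rk
  rw [cntOf_eq, cntOf_eq]
  apply Set.ncard_lt_ncard _ (AA_fin _ _)
  constructor
  · rintro u ⟨h1, h2⟩
    simp only [Bool.and_eq_true, decide_eq_true_eq] at h2
    refine ⟨h1, ?_⟩
    simp only [Bool.and_eq_true, decide_eq_true_eq]
    exact ⟨h2.1, h2.2.trans h⟩
  · intro hsub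
    have h3 : v ∈ AA L fun u => V u && decide (bval u < bval w) :=
      ⟨hv.1, by simp [hv.2, h]⟩
    have h4 := (hsub h3).2
    simp at h4

lemma rk_inj (L : ℕ) (V : List Bool → Bool) {v w : List Bool} (hv : v ∈ AA L V)
    (hw : w ∈ AA L V) (h : rk L V v = rk L V w) : v = w := by
  apply bval_inj v w (by rw [hv.1, hw.1])
  rcases lt_trichotomy (bval v) (bval w) with h1 | h1 | h1
  · exact absurd h (rk_lt L V hv h1).ne
  · exact h1
  · exact absurd h.symm (rk_lt L V hw h1).ne

lemma rk_lt_cnt (L : ℕ) (V : List Bool → Bool) {w : List Bool} (hw : w ∈ AA L V) :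
    rk L V w < cntOf L V := by
  unfold rk
  rw [cntOf_eq, cntOf_eq]
  apply Set.ncard_lt_ncard _ (AA_fin _ _)
  constructor
  · rintro u ⟨h1, h2⟩
    simp only [Bool.and_eq_true, decide_eq_true_eq] at h2
    exact ⟨h1, h2.1⟩
  · intro hsub
    have h4 := (hsub hw).2
    simp at h4

lemma rk_surj (L : ℕ) (V : List Bool → Bool) {r : ℕ} (hr : r < cntOf L V) :
    ∃ w ∈ AA L V, rk L V w = r := by
  classical
  have h1 : ((AA_fin L V).toFinset.image (rk L V)) = Finset.range (cntOf L V) := by
    apply Finset.eq_of_subset_of_card_le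
    · intro x hx
      rw [Finset.mem_image] at hx
      obtain ⟨w, hw, rfl⟩ := hx
      rw [Set.Finite.mem_toFinset] at hw
      exact Finset.mem_range.mpr (rk_lt_cnt L V hw)
    · rw [Finset.card_range, Finset.card_image_of_injOn, cntOf_eq,
        Set.ncard_eq_toFinset_card _ (AA_fin L V)]
      intro v hv w hw h
      simp only [Set.Finite.coe_toFinset] at hv hw
      exact rk_inj L V hv hw h
  have h2 : r ∈ (AA_fin L V).toFinset.image (rk L V) := by
    rw [h1]
    exact Finset.mem_range.mpr hr
  rw [Finset.mem_image] at h2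
  obtain ⟨w, hw, h3⟩ := h2
  exact ⟨w, (Set.Finite.mem_toFinset _).mp hw, h3⟩

/-! ### The word with a given rank -/

/-- one more letter -/
noncomputable def st (L : ℕ) (V : List Bool → Bool) (r : ℕ) (s : List Bool) : List Bool :=
  decide (rk L V (List.replicate (L - s.length - 1) false ++ true :: s) ≤ r) :: s

/-- the word with a given rank -/
noncomputable def un (L : ℕ) (V : List Bool → Bool) (r : ℕ) : List Bool := (st L V r)^[L] []

lemma st_drop (L : ℕ) (V : List Bool → Bool) {w : List Bool} (hw : w ∈ AA L V) {i : ℕ}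
    (hi : i < L) : st L V (rk L V w) (w.drop (L - i)) = w.drop (L - (i + 1)) := by
  have hl : w.length = L := hw.1
  have h1 : w.drop (L - (i + 1)) = w[L - (i + 1)]'(by omega) :: w.drop (L - i) := by
    rw [List.drop_eq_getElem_cons (by omega : L - (i + 1) < w.length)]
    congr 2
    omega
  have h2 : (w.drop (L - i)).length = i := by rw [List.length_drop]; omega
  have h3 : w = w.take (L - (i + 1)) ++ (w[L - (i + 1)]'(by omega) :: w.drop (L - i)) := by
    rw [← h1, List.take_append_drop]
  have h4 : (w.take (L - (i + 1))).length = L - (i + 1) := by rw [List.length_take]; omega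
  have h5 := bval_lt (w.take (L - (i + 1)))
  rw [h4] at h5
  have h6 : bval w = bval (w.take (L - (i + 1))) +
      2 ^ (L - (i + 1)) * ((w[L - (i + 1)]'(by omega)).toNat + 2 * bval (w.drop (L - i))) := by
    conv_lhs => rw [h3]
    rw [bval_append, h4, bval]
  rw [h1]
  unfold st
  rw [h2]
  congr 1
  have h7 : bval (List.replicate (L - i - 1) false ++ true :: w.drop (L - i)) =
      2 ^ (L - (i + 1)) * (1 + 2 * bval (w.drop (L - i))) := by
    rw [bval_append, bval_replicate, List.length_replicate, bval]
    simp only [Bool.toNat_true, zero_add]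
    congr 2
  cases hb : (w[L - (i + 1)]'(by omega)) with
  | true =>
    rw [decide_eq_true_eq]
    apply rk_mono
    rw [h7, h6, hb]
    simp only [Bool.toNat_true]
    omega
  | false =>
    rw [decide_eq_false_iff_not, not_le]
    apply rk_lt L V hw
    rw [h7, h6, hb]
    simp only [Bool.toNat_false, zero_add]
    rw [mul_add, mul_one]
    omega

lemma un_rk (L : ℕ) (V : List Bool → Bool) {w : List Bool} (hw : w ∈ AA L V) :
    un L V (rk L V w) = w := by
  have hl : w.length = L := hw.1
  have h : ∀ i ≤ L, (st L V (rk L V w))^[i] [] = w.drop (L - i) := by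
    intro i
    induction i with
    | zero =>
      intro _
      simp [← hl]
    | succ i ih =>
      intro hi
      rw [Function.iterate_succ_apply', ih (by omega), st_drop L V hw (by omega)]
  unfold un
  rw [h L le_rfl]
  simp

/-! ### Polynomial time -/

/-- an instance and a word in one instance -/
def pack (p : LL × List Bool) : LL := p.1 ++ [p.2.map fun c => if c = true then 1 else 0]

/-- the instance -/
def un1 (y : LL) : LL := y.take (y.length - 1)

/-- the word -/
def un2 (y : LL) : List Bool := (y.getD (y.length - 1) []).map fun n => decide (n = 1)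

lemma un1_pack (p : LL × List Bool) : un1 (pack p) = p.1 := by
  unfold un1 pack
  simp

lemma un2_pack (p : LL × List Bool) : un2 (pack p) = p.2 := by
  unfold un2 pack
  simp only [List.length_append, List.length_cons, List.length_nil, zero_add,
    Nat.add_sub_cancel]
  rw [List.getD_append_right _ _ _ _ le_rfl]
  simp only [Nat.sub_self, List.getD_cons_zero, List.map_map]
  conv_rhs => rw [← List.map_id p.2]
  apply List.map_congr_left
  intro c _
  cases c <;> simp

lemma ptime_pack : PTime pack := by
  unfold pack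
  refine PTime.append (by fun_prop) (PTime.cons ?_ (PTime.const []))
  refine PTime.map (l := fun p : LL × List Bool => p.2)
    (f := fun _ c => if c = true then 1 else 0) (by fun_prop) ?_
  exact PTime.ite (p := fun p : (LL × List Bool) × Bool => p.2 = true) (by fun_prop)
    (PTime.const _) (PTime.const _)

lemma ptime_un1 : PTime un1 := by
  unfold un1
  fun_prop

lemma ptime_un2 : PTime un2 := by
  unfold un2
  exact PTime.map (l := fun y : LL => y.getD (y.length - 1) []) (f := fun _ n => decide (n = 1))
    (by fun_prop) (by fun_prop)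

/-- the rank is computable in polynomial time -/
lemma ptime_rk (hC : CountOK) {L : LL → ℕ} {V : LL → List Bool → Bool} (hL : PTime L)
    (hV : PTime fun p : LL × List Bool => V p.1 p.2) :
    PTime fun p : LL × List Bool => (rk (L p.1) (V p.1) p.2).bits := by
  have h1 := hC (fun y => L (un1 y)) (fun y v => V (un1 y) v && decide (bval v < bval (un2 y)))
    (hL.comp ptime_un1) (by
      refine PTime.and ?_ ?_
      · exact hV.comp (PTime.pair (ptime_un1.comp PTime.fst) PTime.snd)
      · exact ptime_bvalLt PTime.snd (ptime_un2.comp PTime.fst))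
  refine (h1.comp ptime_pack).of_eq fun p => ?_
  rw [un1_pack, un2_pack]
  rfl

lemma st_length (L : ℕ) (V : List Bool → Bool) (r : ℕ) (i : ℕ) :
    ((st L V r)^[i] []).length = i := by
  induction i with
  | zero => rfl
  | succ i ih =>
    rw [Function.iterate_succ_apply', st, List.length_cons, ih]

/-- the translation is computable in polynomial time -/
lemma ptime_tr (hC : CountOK) {L₁ L₂ : LL → ℕ} {V₁ V₂ : LL → List Bool → Bool} (hL₁ : PTime L₁)
    (hL₂ : PTime L₂) (hV₁ : PTime fun p : LL × List Bool => V₁ p.1 p.2)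
    (hV₂ : PTime fun p : LL × List Bool => V₂ p.1 p.2) :
    PTime fun p : LL × List Bool => un (L₂ p.1) (V₂ p.1) (rk (L₁ p.1) (V₁ p.1) p.2) := by
  unfold un
  refine PTime.iterate (n := fun p : LL × List Bool => L₂ p.1) (s := fun _ => [])
    (f := fun p s => st (L₂ p.1) (V₂ p.1) (rk (L₁ p.1) (V₁ p.1) p.2) s)
    (hL₂.comp PTime.fst) (PTime.const _) ?_
    (B := fun p => L₂ p.1 * 4 + 1) ?_ ?_
  · refine PTime.cons ?_ PTime.snd
    have hr2 := ptime_rk hC hL₂ hV₂
    have hr1 := ptime_rk hC hL₁ hV₁
    apply bin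
    · refine hr2.comp (f := fun p : LL × List Bool => (rk (L₂ p.1) (V₂ p.1) p.2).bits)
        (g := fun q : (LL × List Bool) × List Bool =>
          (q.1.1, List.replicate (L₂ q.1.1 - q.2.length - 1) false ++ true :: q.2)) ?_
      have h2 : PTime fun q : (LL × List Bool) × List Bool => L₂ q.1.1 :=
        hL₂.comp (by fun_prop)
      refine PTime.pair (by fun_prop) (PTime.append (PTime.replicate (by fun_prop)
        (PTime.const _)) (by fun_prop))
    · exact hr1.comp (f := fun p : LL × List Bool => (rk (L₁ p.1) (V₁ p.1) p.2).bits)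
        (g := fun q : (LL × List Bool) × List Bool => q.1) (by fun_prop)
  · refine PB.add (PB.mul ?_ (PB.const 4)) (PB.const 1)
    have h1 : PTime fun p : LL × List Bool => L₂ p.1 := hL₂.comp (by fun_prop)
    refine h1.sz_le.mono fun a => ?_
    rw [sz_nat]
    omega
  · intro p i hi
    have h1 := st_length (L₂ p.1) (V₂ p.1) (rk (L₁ p.1) (V₁ p.1) p.2) i
    have h2 : ∀ l : List Bool, sz l ≤ l.length * 4 + 1 := by
      intro l
      induction l with
      | nil => simp
      | cons c l ih =>
        rw [sz_cons, List.length_cons]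
        have := sz_bool c
        omega
    refine (h2 _).trans ?_
    show ((st (L₂ p.1) (V₂ p.1) (rk (L₁ p.1) (V₁ p.1) p.2))^[i] []).length * 4 + 1 ≤ _
    rw [h1]
    omega

/-- one direction -/
lemma main {L₁ L₂ : ℕ} {V₁ V₂ : List Bool → Bool} (h : cntOf L₁ V₁ = cntOf L₂ V₂)
    (w : List Bool) (h1 : w.length = L₁) (h2 : V₁ w = true) :
    (un L₂ V₂ (rk L₁ V₁ w)).length = L₂ ∧ V₂ (un L₂ V₂ (rk L₁ V₁ w)) = true ∧
      un L₁ V₁ (rk L₂ V₂ (un L₂ V₂ (rk L₁ V₁ w))) = w := by
  have hw : w ∈ AA L₁ V₁ := ⟨h1, h2⟩
  have h3 := rk_lt_cnt L₁ V₁ hw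
  rw [h] at h3
  obtain ⟨w', hw', h4⟩ := rk_surj L₂ V₂ h3
  rw [← h4, un_rk L₂ V₂ hw']
  refine ⟨hw'.1, hw'.2, ?_⟩
  rw [h4, un_rk L₁ V₁ hw]

end TransAux

open TransAux in
/-- Bijections in polynomial time. -/
theorem trans (_h : StBin) : StTrans := by
  intro hC L₁ L₂ V₁ V₂ hL₁ hL₂ hV₁ hV₂
  refine ⟨fun x w => un (L₂ x) (V₂ x) (rk (L₁ x) (V₁ x) w),
    fun x w => un (L₁ x) (V₁ x) (rk (L₂ x) (V₂ x) w), ptime_tr hC hL₁ hL₂ hV₁ hV₂,
    ptime_tr hC hL₂ hL₁ hV₂ hV₁, ?_⟩
  intro x hx
  exact ⟨fun w h1 h2 => main hx w h1 h2, fun w h1 h2 => main hx.symm w h1 h2⟩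

end Pool.Agent.Lib.MP_186ff7_lc.Cnt
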